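import Mathlib

/-! # A reverse Fatou lemma -/

set_option autoImplicit false

namespace Pool.Agent.Y273.VI

open MeasureTheory Set Filter Topology

variable {X : Type*} [MeasurableSpace X] {μ : Measure X}

theorem rfatou {G : ℕ → X → ℝ} {g h : X → ℝ} {l : ℝ} (hG : ∀ n, Integrable (G n) μ)
    (hh : Integrable h μ) (hle : ∀ n, ∀ᵐ x ∂μ, G n x ≤ h x) (hl : ∀ n, l ≤ ∫ x, G n x ∂μ)
    (hg : AEStronglyMeasurable g μ)
    (hlim : ∀ᵐ x ∂μ, Tendsto (fun n => G n x) atTop (𝓝 (g x))) :
    Integrable g μ ∧ l ≤ ∫ x, g x ∂μ := by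
  have hgh : ∀ᵐ x ∂μ, g x ≤ h x := by
    filter_upwards [hlim, ae_all_iff.2 hle] with x h1 h2
    exact le_of_tendsto' h1 h2
  have hI : ∀ n, Integrable (fun x => h x - G n x) μ := fun n => hh.sub (hG n)
  have hlh : l ≤ ∫ x, h x ∂μ := (hl 0).trans (integral_mono_ae (hG 0) hh (hle 0))
  have key : ∫⁻ x, ENNReal.ofReal (h x - g x) ∂μ ≤ ENNReal.ofReal ((∫ x, h x ∂μ) - l) := by
    have h1 : ∫⁻ x, ENNReal.ofReal (h x - g x) ∂μ
        = ∫⁻ x, liminf (fun n => ENNReal.ofReal (h x - G n x)) atTop ∂μ := by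
      apply lintegral_congr_ae
      filter_upwards [hlim] with x hx
      refine (Tendsto.liminf_eq ?_).symm
      exact (ENNReal.continuous_ofReal.tendsto _).comp (tendsto_const_nhds.sub hx)
    rw [h1]
    refine (lintegral_liminf_le' fun n =>
      ((hI n).aestronglyMeasurable.aemeasurable.ennreal_ofReal)).trans ?_
    refine liminf_le_of_le (by isBoundedDefault) ?_
    intro b hb
    obtain ⟨n, hn⟩ := hb.exists
    refine hn.trans ?_
    rw [← ofReal_integral_eq_lintegral_ofReal (hI n)
      (by filter_upwards [hle n] with x hx; simpa using hx), integral_sub hh (hG n)]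
    exact ENNReal.ofReal_le_ofReal (by linarith [hl n])
  have hi : Integrable (fun x => h x - g x) μ := by
    refine ⟨hh.aestronglyMeasurable.sub hg, ?_⟩
    rw [hasFiniteIntegral_iff_ofReal (by filter_upwards [hgh] with x hx; simpa using hx)]
    exact key.trans_lt ENNReal.ofReal_lt_top
  have hgi : Integrable g μ := by
    have := hh.sub hi
    refine this.congr (Eventually.of_forall fun x => ?_)
    simp
  refine ⟨hgi, ?_⟩
  rw [← ofReal_integral_eq_lintegral_ofReal hi
    (by filter_upwards [hgh] with x hx; simpa using hx),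
    ENNReal.ofReal_le_ofReal_iff (by linarith), integral_sub hh hgi] at key
  linarith

end Pool.Agent.Y273.VI
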