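import Pool.Agent.Y273.VI.Main

/-! # The theorem for matrices -/

set_option autoImplicit false

namespace Pool.Agent.Y273.VI

open MeasureTheory Set Filter Topology
open Pool.Agent.W360.MQ (cab)
open Pool.Agent.TH937.ZC (gf W_eq)
open Pool.Agent.W523.MQ.OM (T)

theorem det_cab (A : Matrix (Fin 2) (Fin 2) ℝ) : 0 < A.det ↔ ‖(cab A).2‖ < ‖(cab A).1‖ := by
  rw [(Pool.Agent.W74.MQ.OPN.main A).2, sub_pos, sq_lt_sq₀ (norm_nonneg _) (norm_nonneg _)]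

open scoped Matrix.Norms.L2Operator in
theorem gl_main (a b : ℝ → ℝ) (W : Matrix (Fin 2) (Fin 2) ℝ → ℝ)
    (hW : ∀ A : Matrix (Fin 2) (Fin 2) ℝ, 0 < A.det →
      W A = a (A.det / ‖A‖) * ‖A‖ + b (A.det / ‖A‖))
    (hR : Rp W) (F₀ : Matrix (Fin 2) (Fin 2) ℝ) (h0 : 0 < F₀.det) {Ω : Set (Fin 2 → ℝ)}
    {ϑ : (Fin 2 → ℝ) → (Fin 2 → ℝ)} (h : Tm Ω ϑ)
    (hpos : ∀ᵐ x ∂(volume.restrict Ω), 0 < (F₀ + LinearMap.toMatrix'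
      ((fderiv ℝ ϑ x : (Fin 2 → ℝ) →L[ℝ] (Fin 2 → ℝ)) :
        (Fin 2 → ℝ) →ₗ[ℝ] (Fin 2 → ℝ))).det)
    (hfin : ∫⁻ x in Ω, ENNReal.ofReal (W (F₀ + LinearMap.toMatrix'
      ((fderiv ℝ ϑ x : (Fin 2 → ℝ) →L[ℝ] (Fin 2 → ℝ)) :
        (Fin 2 → ℝ) →ₗ[ℝ] (Fin 2 → ℝ)))) ≠ ⊤) :
    IntegrableOn (fun x => W (F₀ + LinearMap.toMatrix'
      ((fderiv ℝ ϑ x : (Fin 2 → ℝ) →L[ℝ] (Fin 2 → ℝ)) :
        (Fin 2 → ℝ) →ₗ[ℝ] (Fin 2 → ℝ)))) Ω ∧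
    W F₀ * (volume Ω).toReal ≤ ∫ x in Ω, W (F₀ + LinearMap.toMatrix'
      ((fderiv ℝ ϑ x : (Fin 2 → ℝ) →L[ℝ] (Fin 2 → ℝ)) :
        (Fin 2 → ℝ) →ₗ[ℝ] (Fin 2 → ℝ))) := by
  have hW' : ∀ A : Matrix (Fin 2) (Fin 2) ℝ, 0 < A.det → W A = gf a b (cab A) := by
    intro A hA
    rw [hW A hA, W_eq]
  have hRc : RCp (gf a b) := RCp_of hW' hR
  have hpos' : ∀ᵐ x ∂(volume.restrict Ω),
      ‖(T F₀ (fderiv ℝ ϑ x)).2‖ < ‖(T F₀ (fderiv ℝ ϑ x)).1‖ := by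
    filter_upwards [hpos] with x hx
    exact (det_cab _).1 hx
  have hev : (fun x => W (F₀ + LinearMap.toMatrix'
      ((fderiv ℝ ϑ x : (Fin 2 → ℝ) →L[ℝ] (Fin 2 → ℝ)) :
        (Fin 2 → ℝ) →ₗ[ℝ] (Fin 2 → ℝ)))) =ᵐ[volume.restrict Ω]
      fun x => gf a b (T F₀ (fderiv ℝ ϑ x)) := by
    filter_upwards [hpos] with x hx
    exact hW' _ hx
  have hfin' : ∫⁻ x in Ω, ENNReal.ofReal (gf a b (T F₀ (fderiv ℝ ϑ x))) ≠ ⊤ := by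
    have e := lintegral_congr_ae (hev.fun_comp ENNReal.ofReal)
    simp only [Function.comp] at e
    rw [← e]
    exact hfin
  obtain ⟨h1, h2⟩ := main_c hRc h ((det_cab F₀).1 h0) hpos' hfin'
  refine ⟨h1.congr_fun_ae hev.symm, ?_⟩
  rw [integral_congr_ae hev, hW' F₀ h0]
  exact h2

end Pool.Agent.Y273.VI
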