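import Pool.Agent.TH937.ZC.Fin

/-! # The smallest functions affine in `s` with a given coefficient of `s` -/

set_option autoImplicit false

namespace Pool.Agent.Y273.VI

open MeasureTheory Set Filter Topology
open Pool.Agent.TH937.ZC (QL DH)

theorem sub_grad {α : ℝ → ℝ} (hα : ConvexOn ℝ univ α) (v : ℝ) :
    ∃ k, ∀ u, α v + k * (u - v) ≤ α u := by
  refine ⟨derivWithin α (Ioi v) v, fun u => ?_⟩
  have hv : v ∈ interior (univ : Set ℝ) := by simp
  have hu : u ∈ interior (univ : Set ℝ) := by simp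
  rcases lt_trichotomy u v with h | h | h
  · have h1 := hα.slope_le_leftDeriv_of_mem_interior (mem_univ u) hv h
    have h2 := hα.leftDeriv_le_rightDeriv_of_mem_interior hv
    have h3 := h1.trans h2
    rw [slope_def_field, div_le_iff₀ (by linarith)] at h3
    linarith
  · subst h
    simp
  · have h1 := hα.rightDeriv_le_slope_of_mem_interior hv (mem_univ u) h
    rw [slope_def_field, le_div_iff₀ (by linarith)] at h1
    linarith

theorem int_aff (c k v x y : ℝ) :
    ∫ t in x..y, (c + k * (t - v)) = c * (y - x) + k * ((y - v) ^ 2 - (x - v) ^ 2) / 2 := by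
  have h : ∀ t ∈ uIcc x y, HasDerivAt (fun t => c * t + k * (t - v) ^ 2 / 2)
      (c + k * (t - v)) t := by
    intro t _
    have h1 : HasDerivAt (fun t : ℝ => c * t) c t := by
      simpa using (hasDerivAt_id t).const_mul c
    have h2 : HasDerivAt (fun t : ℝ => t - v) 1 t := (hasDerivAt_id t).sub_const v
    have h3 := ((h2.mul h2).const_mul (k / 2))
    have h4 := h1.add h3
    refine (h4.congr_deriv (by ring)).congr_of_eventuallyEq
      (Filter.Eventually.of_forall fun r => ?_)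
    simp only [Pi.add_apply, Pi.mul_apply]
    ring
  rw [intervalIntegral.integral_eq_sub_of_hasDerivAt h
    (Continuous.intervalIntegrable (by fun_prop) _ _)]
  ring

theorem int_low {α : ℝ → ℝ} (hc : Continuous α) {c k v x y : ℝ} (hxy : x ≤ y)
    (h : ∀ t ∈ Icc x y, c + k * (t - v) ≤ α t) :
    c * (y - x) + k * ((y - v) ^ 2 - (x - v) ^ 2) / 2 ≤ ∫ t in x..y, α t := by
  rw [← int_aff]
  exact intervalIntegral.integral_mono_on hxy
    (Continuous.intervalIntegrable (by fun_prop) _ _) (hc.intervalIntegrable _ _) h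

theorem int_up {α : ℝ → ℝ} (hc : Continuous α) {c k v x y : ℝ} (hxy : x ≤ y)
    (h : ∀ t ∈ Icc x y, α t ≤ c + k * (t - v)) :
    ∫ t in x..y, α t ≤ c * (y - x) + k * ((y - v) ^ 2 - (x - v) ^ 2) / 2 := by
  rw [← int_aff]
  exact intervalIntegral.integral_mono_on hxy
    (hc.intervalIntegrable _ _) (Continuous.intervalIntegrable (by fun_prop) _ _) h

theorem int_trap {α : ℝ → ℝ} (hc : Continuous α) (hα : ConvexOn ℝ univ α) {x y : ℝ}
    (hxy : x ≤ y) : ∫ t in x..y, α t ≤ (α x + α y) / 2 * (y - x) := by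
  rcases eq_or_lt_of_le hxy with h | h
  · subst h
    simp
  have hd : 0 < y - x := by linarith
  have key := int_up hc (c := α x) (k := (α y - α x) / (y - x)) (v := x) hxy (by
    intro t ht
    have ha : 0 ≤ (y - t) / (y - x) := div_nonneg (by linarith [ht.2]) hd.le
    have hb : 0 ≤ (t - x) / (y - x) := div_nonneg (by linarith [ht.1]) hd.le
    have h1 := hα.2 (mem_univ x) (mem_univ y) ha hb (by field_simp; ring)
    simp only [smul_eq_mul] at h1
    have e1 : (y - t) / (y - x) * x + (t - x) / (y - x) * y = t := by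
      field_simp
      ring
    rw [e1] at h1
    refine h1.trans (le_of_eq ?_)
    field_simp
    ring)
  refine key.trans (le_of_eq ?_)
  field_simp
  ring

/-- the kernel -/
noncomputable def Kf (α : ℝ → ℝ) (ρ s v : ℝ) : ℝ := α v * (s - v) - 2 * ∫ t in v..ρ, α t

theorem Kf_diff {α : ℝ → ℝ} (hc : Continuous α) (ρ s u v : ℝ) :
    Kf α ρ s u - Kf α ρ s v = α u * (s - u) - α v * (s - v) + 2 * ∫ t in v..u, α t := by
  unfold Kf
  have h := intervalIntegral.integral_add_adjacent_intervals (μ := volume)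
    (hc.intervalIntegrable v u) (hc.intervalIntegrable u ρ)
  linarith

theorem Kf_conv {α : ℝ → ℝ} (hα : ConvexOn ℝ univ α) (ρ s : ℝ) :
    ConvexOn ℝ (Iic s) (fun v => Kf α ρ s v) := by
  have hc : Continuous α := continuousOn_univ.1 (hα.continuousOn isOpen_univ)
  have key : ∀ v ∈ Iic s, ∃ k, ∀ u ∈ Iic s, Kf α ρ s v + k * (u - v) ≤ Kf α ρ s u := by
    intro v hv
    obtain ⟨k, hk⟩ := sub_grad hα v
    refine ⟨k * (s - v) + α v, fun u hu => ?_⟩
    have hv' : v ≤ s := hv
    have hu' : u ≤ s := hu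
    have hd := Kf_diff hc ρ s u v
    rcases le_total v u with h | h
    · have h1 := int_low hc (c := α v) (k := k) (v := v) h (fun t _ => hk t)
      have h2 := mul_le_mul_of_nonneg_right (hk u) (sub_nonneg.2 hu')
      nlinarith
    · have h1 := int_trap hc hα h
      rw [intervalIntegral.integral_symm] at hd
      have h2 := mul_le_mul_of_nonneg_right (hk u) (sub_nonneg.2 hv')
      nlinarith
  refine ⟨convex_Iic s, fun x hx y hy p q hp hq hpq => ?_⟩
  obtain ⟨k, hk⟩ := key _ ((convex_Iic s) hx hy hp hq hpq)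
  have h1 := mul_le_mul_of_nonneg_left (hk x hx) hp
  have h2 := mul_le_mul_of_nonneg_left (hk y hy) hq
  simp only [smul_eq_mul] at h1 h2 ⊢
  have e : p * (Kf α ρ s (p * x + q * y) + k * (x - (p * x + q * y)))
      + q * (Kf α ρ s (p * x + q * y) + k * (y - (p * x + q * y)))
        = Kf α ρ s (p * x + q * y) := by
    have : q = 1 - p := by linarith
    subst this
    ring
  linarith

theorem ker_dh {α : ℝ → ℝ} {ρ v0 a0 b0 A B : ℝ} (hα : ConvexOn ℝ univ α)
    (hz : ∀ v, ρ ≤ v → α v = 0) (hρ : 0 < ρ) (hv : ρ < v0) :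
    DH (fun v => a0 + A * (v - ρ) + α v)
      (fun v => b0 + B * (v - ρ) - v * α v - 2 * ∫ t in v..ρ, α t) v0 A B := by
  have hc : Continuous α := continuousOn_univ.1 (hα.continuousOn isOpen_univ)
  have hcv : ∀ s, 0 < s → ConvexOn ℝ (Icc (-s) s) (fun v => (a0 + A * (v - ρ) + α v) * s
      + (b0 + B * (v - ρ) - v * α v - 2 * ∫ t in v..ρ, α t)) := by
    intro s _
    have h1 : ConvexOn ℝ (Icc (-s) s) (fun v => Kf α ρ s v) :=
      (Kf_conv hα ρ s).subset Icc_subset_Iic_self (convex_Icc _ _)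
    refine ⟨convex_Icc _ _, fun x hx y hy p q hp hq hpq => ?_⟩
    have h2 := h1.2 hx hy hp hq hpq
    simp only [smul_eq_mul] at h2 ⊢
    unfold Kf at h2
    have : q = 1 - p := by linarith
    subst this
    nlinarith
  obtain ⟨ha, hb⟩ := Pool.Agent.TH937.ZC.gs_cont hcv
  have hev : ∀ᶠ v in 𝓝 v0, α v = 0 := by
    filter_upwards [Ioi_mem_nhds hv] with v hv'
    exact hz v (le_of_lt hv')
  have hi : ∀ v, ρ ≤ v → ∫ t in v..ρ, α t = 0 := by
    intro v hv'
    rw [intervalIntegral.integral_symm]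
    have : ∫ t in ρ..v, α t = ∫ t in ρ..v, (0 : ℝ) := by
      apply intervalIntegral.integral_congr
      intro t ht
      rw [uIcc_of_le hv'] at ht
      exact hz t ht.1
    rw [this]
    simp
  refine ⟨hcv, Pool.Agent.TH937.ZC.conv_a hcv, ha, hb, hρ.trans hv, ?_, ?_⟩
  · have h1 : HasDerivAt (fun v : ℝ => a0 + A * (v - ρ)) A v0 := by
      have := (((hasDerivAt_id v0).sub_const ρ).const_mul A).const_add a0
      simpa using this
    refine h1.congr_of_eventuallyEq ?_
    filter_upwards [hev] with v hv'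
    rw [hv', add_zero]
  · have h1 : HasDerivAt (fun v : ℝ => b0 + B * (v - ρ)) B v0 := by
      have := (((hasDerivAt_id v0).sub_const ρ).const_mul B).const_add b0
      simpa using this
    refine h1.congr_of_eventuallyEq ?_
    filter_upwards [hev, Ioi_mem_nhds hv] with v hv' hv''
    rw [hv', hi v (le_of_lt hv'')]
    ring

/-- the function -/
noncomputable def Gf (α : ℝ → ℝ) (ρ a0 b0 A B s v : ℝ) : ℝ :=
  (a0 + A * (v - ρ)) * s + (b0 + B * (v - ρ)) + Kf α ρ s v

theorem Gf_eq (α : ℝ → ℝ) (ρ a0 b0 A B s v : ℝ) : Gf α ρ a0 b0 A B s v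
    = (a0 + A * (v - ρ) + α v) * s + (b0 + B * (v - ρ) - v * α v - 2 * ∫ t in v..ρ, α t) := by
  unfold Gf Kf
  ring

theorem ker_ql {α : ℝ → ℝ} {ρ v0 a0 b0 A B : ℝ} (hα : ConvexOn ℝ univ α)
    (hz : ∀ v, ρ ≤ v → α v = 0) (hρ : 0 < ρ) (hv : ρ < v0) (hAB : |B| ≤ a0 - ρ * A)
    {F0 : ℂ × ℂ} (hF : ‖F0.1‖ - ‖F0.2‖ = v0) :
    Continuous (fun F : ℂ × ℂ => Gf α ρ a0 b0 A B (‖F.1‖ + ‖F.2‖) (‖F.1‖ - ‖F.2‖)) ∧
    QL (fun F => Gf α ρ a0 b0 A B (‖F.1‖ + ‖F.2‖) (‖F.1‖ - ‖F.2‖)) F0 := by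
  have H := ker_dh (a0 := a0) (b0 := b0) (A := A) (B := B) hα hz hρ hv
  have h1 := H.QLpos (by
    rw [hz v0 hv.le]
    have : a0 + A * (v0 - ρ) + 0 - v0 * A = a0 - ρ * A := by ring
    rw [this]
    exact hAB) F0 hF
  simp only [Gf_eq]
  refine ⟨?_, h1⟩
  have c1 := H.ha
  have c2 := H.hb
  have e1 : Continuous (fun F : ℂ × ℂ => (fun v => a0 + A * (v - ρ) + α v) (‖F.1‖ - ‖F.2‖)) :=
    c1.comp (by fun_prop)
  have e2 : Continuous (fun F : ℂ × ℂ => (fun v => b0 + B * (v - ρ) - v * α v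
    - 2 * ∫ t in v..ρ, α t) (‖F.1‖ - ‖F.2‖)) := c2.comp (by fun_prop)
  exact (e1.mul (by fun_prop)).add e2

/-- below the tangent for small `s` -/
theorem Kf_small {α : ℝ → ℝ} (hc : Continuous α)
    (hn : ∀ v, 0 ≤ α v) {r ρ a1 k s v : ℝ} (hlin : ∀ v, v ≤ r → α v = a1 + k * (v - r))
    (hrρ : r ≤ ρ) (hvs : v ≤ s) (hsr : s ≤ r) : Kf α ρ s v ≤ 0 := by
  unfold Kf
  have h1 : (α v + α s) / 2 * (s - v) ≤ ∫ t in v..s, α t := by
    have h2 := int_low hc (c := α v) (k := k) (v := v) hvs (by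
      intro t ht
      rw [hlin t (ht.2.trans hsr), hlin v (hvs.trans hsr)]
      linarith)
    refine le_trans (le_of_eq ?_) h2
    rw [hlin s hsr, hlin v (hvs.trans hsr)]
    ring
  have h3 : 0 ≤ ∫ t in s..ρ, α t :=
    intervalIntegral.integral_nonneg (hsr.trans hrρ) fun t _ => hn t
  have h4 := intervalIntegral.integral_add_adjacent_intervals (μ := volume)
    (hc.intervalIntegrable v s) (hc.intervalIntegrable s ρ)
  have h5 := mul_nonneg (hn s) (sub_nonneg.2 hvs)
  nlinarith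

end Pool.Agent.Y273.VI
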