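import Pool.Agent.TH937.ZC.Fin

/-! # From quasiconvexity at one point in complex notation to matrices and open sets -/

set_option autoImplicit false

namespace Pool.Agent.Y273.VI

open MeasureTheory Set Filter Topology
open Pool.Agent.W488.IW (dz dzb)
open Pool.Agent.W360.MQ (cab)
open Pool.Agent.TH937.ZC (QL)
open Pool.Agent.W523.MQ.OM (L fo T T_cont cab_fderiv cab_add)

/-- the test maps -/
structure Tm (Ω : Set (Fin 2 → ℝ)) (ϑ : (Fin 2 → ℝ) → (Fin 2 → ℝ)) : Prop where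
  op : IsOpen Ω
  bd : Bornology.IsBounded Ω
  lip : ∃ K, LipschitzWith K ϑ
  zero : ∀ x, x ∉ Ω → ϑ x = 0

variable {Ω : Set (Fin 2 → ℝ)} {ϑ : (Fin 2 → ℝ) → (Fin 2 → ℝ)}

theorem Tm.fin (h : Tm Ω ϑ) : volume Ω < ⊤ := h.bd.measure_lt_top

theorem T_meas (F₀ : Matrix (Fin 2) (Fin 2) ℝ) (ϑ : (Fin 2 → ℝ) → (Fin 2 → ℝ)) :
    Measurable (fun x => T F₀ (fderiv ℝ ϑ x)) :=
  (T_cont F₀).measurable.comp (measurable_fderiv ℝ ϑ)

theorem pt_bd {w : ℂ × ℂ → ℝ} (hw : Continuous w) (F₀ : Matrix (Fin 2) (Fin 2) ℝ)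
    (h : Tm Ω ϑ) : ∃ C, ∀ x, ‖w (T F₀ (fderiv ℝ ϑ x))‖ ≤ C := by
  obtain ⟨K, hK⟩ := h.lip
  have hc : IsCompact (Metric.closedBall (0 : (Fin 2 → ℝ) →L[ℝ] (Fin 2 → ℝ)) K) :=
    isCompact_closedBall _ _
  obtain ⟨C, hC⟩ := hc.exists_bound_of_continuousOn
    ((hw.comp (T_cont F₀)).continuousOn (s := Metric.closedBall 0 (K : ℝ)))
  refine ⟨C, fun x => hC _ ?_⟩
  rw [mem_closedBall_zero_iff]
  exact norm_fderiv_le_of_lipschitz ℝ hK

theorem pt_int {w : ℂ × ℂ → ℝ} (hw : Continuous w) (F₀ : Matrix (Fin 2) (Fin 2) ℝ)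
    (h : Tm Ω ϑ) : IntegrableOn (fun x => w (T F₀ (fderiv ℝ ϑ x))) Ω := by
  obtain ⟨C, hC⟩ := pt_bd hw F₀ h
  exact Measure.integrableOn_of_bounded h.fin.ne
    (hw.measurable.comp (T_meas F₀ ϑ)).aestronglyMeasurable
    (Filter.Eventually.of_forall hC)

theorem pt_ql {w : ℂ × ℂ → ℝ} (hw : Continuous w) (F₀ : Matrix (Fin 2) (Fin 2) ℝ)
    (hQ : QL w (cab F₀)) (h : Tm Ω ϑ) :
    w (cab F₀) * (volume Ω).toReal ≤ ∫ x in Ω, w (T F₀ (fderiv ℝ ϑ x)) := by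
  have hΩb := h.bd
  have h0 := h.zero
  obtain ⟨K, hK⟩ := h.lip
  -- the map on the complex plane
  have hfl : ∃ K', LipschitzWith K' (fo ϑ) :=
    ⟨_, (L.symm.lipschitz).comp (hK.comp L.lipschitz)⟩
  have hfc : HasCompactSupport (fo ϑ) := by
    have hcK : IsCompact (L.symm '' (closure Ω)) :=
      (hΩb.isCompact_closure).image L.symm.continuous
    refine HasCompactSupport.intro hcK ?_
    intro z hz
    have : L z ∉ Ω := by
      intro hmem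
      exact hz ⟨L z, subset_closure hmem, L.symm_apply_apply z⟩
    simp [fo, h0 _ this]
  have hpos := hQ (fo ϑ) hfl hfc
  -- the integrand
  set G : (Fin 2 → ℝ) → ℝ := fun x => w (T F₀ (fderiv ℝ ϑ x)) - w (cab F₀) with hG
  have hGL : ∀ z : ℂ, w (cab F₀ + (dz (fo ϑ) z, dzb (fo ϑ) z)) - w (cab F₀) = G (L z) := by
    intro z
    simp only [hG, T]
    rw [cab_fderiv, cab_add]
  have hint : ∫ z : ℂ, G (L z) = ∫ x : Fin 2 → ℝ, G x :=
    Complex.volume_preserving_equiv_pi.integral_comp' G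
  simp only [hGL] at hpos
  rw [hint] at hpos
  have hzero : ∀ᵐ x : Fin 2 → ℝ, x ∉ Ω → G x = 0 := by
    filter_upwards [Pool.Agent.W523.MQ.ZERO.main ϑ ⟨K, hK⟩] with x hx hxΩ
    have := hx (h0 x hxΩ)
    simp [hG, T, this]
  rw [← setIntegral_eq_integral_of_ae_compl_eq_zero hzero] at hpos
  have hI1 := pt_int hw F₀ h
  have hI2 : IntegrableOn (fun _ : Fin 2 → ℝ => w (cab F₀)) Ω :=
    integrableOn_const h.fin.ne
  rw [hG, integral_sub hI1 hI2, setIntegral_const] at hpos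
  simp only [smul_eq_mul, Measure.real] at hpos
  linarith [mul_comm (w (cab F₀)) (volume Ω).toReal]

end Pool.Agent.Y273.VI
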