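import Pool.Agent.TH937.ZC.Fin

/-! # Consequences of rank-one convexity on matrices with positive determinant -/

set_option autoImplicit false

namespace Pool.Agent.Y273.VI

open MeasureTheory Set Filter Topology
open scoped ComplexConjugate
open Pool.Agent.W360.MQ (cab)
open Pool.Agent.TH937.TF (bac cab_bac)
open Pool.Agent.TH937.ZC (gf gf_diag rank_one bac_add bac_smul bac_inj0 ee ee_zero ee_deriv)

/-- rank-one convexity on positive determinants in the variables `(u_z, u_zbar)` -/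
def RCp (w : ℂ × ℂ → ℝ) : Prop := ∀ F H : ℂ × ℂ, ‖H.1‖ = ‖H.2‖ → ‖F.2‖ < ‖F.1‖ →
  ‖(F + H).2‖ < ‖(F + H).1‖ → ∀ t : ℝ, 0 ≤ t → t ≤ 1 →
  w (F + t • H) ≤ (1 - t) * w F + t * w (F + H)

theorem det_bac (F : ℂ × ℂ) : (bac F).det = ‖F.1‖ ^ 2 - ‖F.2‖ ^ 2 := by
  unfold bac
  rw [Matrix.det_fin_two_of, ← Complex.normSq_eq_norm_sq, ← Complex.normSq_eq_norm_sq,
    Complex.normSq_apply, Complex.normSq_apply]
  simp only [Complex.add_re, Complex.sub_re, Complex.add_im, Complex.sub_im]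
  ring

theorem det_pos_iff (F : ℂ × ℂ) : 0 < (bac F).det ↔ ‖F.2‖ < ‖F.1‖ := by
  rw [det_bac, sub_pos, sq_lt_sq₀ (norm_nonneg _) (norm_nonneg _)]

theorem det_line (F H : ℂ × ℂ) (h : ‖H.1‖ = ‖H.2‖) (t : ℝ) :
    (bac (F + t • H)).det = (1 - t) * (bac F).det + t * (bac (F + H)).det := by
  have e : ‖H.1‖ ^ 2 = ‖H.2‖ ^ 2 := by rw [h]
  simp only [det_bac]
  simp only [← Complex.normSq_eq_norm_sq, Complex.normSq_apply] at e ⊢
  simp only [Prod.fst_add, Prod.snd_add, Prod.smul_fst, Prod.smul_snd, Complex.add_re,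
    Complex.add_im, Complex.real_smul, Complex.mul_re, Complex.mul_im, Complex.ofReal_re,
    Complex.ofReal_im, zero_mul, sub_zero, add_zero]
  linear_combination (t ^ 2 - t) * e

theorem rank_bac {H : ℂ × ℂ} (hz : H ≠ 0) (hH : ‖H.1‖ = ‖H.2‖) : (bac H).rank = 1 := by
  unfold bac
  apply rank_one
  · have e : ‖H.1‖ ^ 2 = ‖H.2‖ ^ 2 := by rw [hH]
    rw [← Complex.normSq_eq_norm_sq, ← Complex.normSq_eq_norm_sq, Complex.normSq_apply,
      Complex.normSq_apply] at e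
    simp only [Complex.add_re, Complex.sub_re, Complex.add_im, Complex.sub_im]
    nlinarith
  · rintro ⟨e1, e2, e3, e4⟩
    apply hz
    apply bac_inj0
    unfold bac
    rw [e1, e2, e3, e4]
    ext i j
    fin_cases i <;> fin_cases j <;> simp

/-- rank-one convexity of a function of a matrix -/
def Rp (W : Matrix (Fin 2) (Fin 2) ℝ → ℝ) : Prop :=
  ∀ F H : Matrix (Fin 2) (Fin 2) ℝ, H.rank = 1 → 0 < F.det → 0 < (F + H).det →
    ∀ t : ℝ, 0 ≤ t → t ≤ 1 → W ((1 - t) • F + t • (F + H)) ≤ (1 - t) * W F + t * W (F + H)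

theorem RCp_of {W : Matrix (Fin 2) (Fin 2) ℝ → ℝ} {w : ℂ × ℂ → ℝ}
    (hW : ∀ A, 0 < A.det → W A = w (cab A)) (hR : Rp W) : RCp w := by
  intro F H hH hF hFH t h0 h1
  by_cases hz : H = 0
  · subst hz
    simp only [smul_zero, add_zero]
    linarith
  have d1 := (det_pos_iff F).2 hF
  have d2 := (det_pos_iff (F + H)).2 hFH
  have d3 : 0 < (bac (F + t • H)).det := by
    rw [det_line F H hH]
    rcases eq_or_lt_of_le h0 with h | h
    · subst h
      simpa using d1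
    · have := mul_pos h d2
      have := mul_nonneg (sub_nonneg.2 h1) d1.le
      linarith
  have h := hR (bac F) (bac H) (rank_bac hz hH) d1 (by rw [← bac_add]; exact d2) t h0 h1
  have e1 : (1 - t) • bac F + t • (bac F + bac H) = bac (F + t • H) := by
    rw [bac_add, bac_smul, smul_add, sub_smul, one_smul]
    abel
  rw [e1, ← bac_add, hW _ d1, hW _ d2, hW _ d3, cab_bac, cab_bac, cab_bac] at h
  exact h

theorem cvp {a b : ℝ → ℝ} (hR : RCp (gf a b)) (s : ℝ) :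
    ConvexOn ℝ (Ioc 0 s) (fun v => a v * s + b v) := by
  refine ⟨convex_Ioc _ _, fun x hx y hy α β hα hβ hαβ => ?_⟩
  have habs : ∀ z ∈ Ioc 0 s, |z| ≤ s := fun z hz => by rw [abs_of_pos hz.1]; exact hz.2
  have hz := (convex_Ioc 0 s) hx hy hα hβ hαβ
  have hn : ∀ z ∈ Ioc 0 s, ‖(((z - s) / 2 : ℝ) : ℂ)‖ < ‖(((z + s) / 2 : ℝ) : ℂ)‖ := by
    intro z hz
    rw [Complex.norm_real, Complex.norm_real, Real.norm_eq_abs, Real.norm_eq_abs,
      abs_of_nonpos (by linarith [hz.2]), abs_of_nonneg (by linarith [hz.1, hz.2])]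
    linarith [hz.1]
  have e1 : ((((x + s) / 2 : ℝ) : ℂ), (((x - s) / 2 : ℝ) : ℂ))
      + ((((y - x) / 2 : ℝ) : ℂ), (((y - x) / 2 : ℝ) : ℂ))
      = ((((y + s) / 2 : ℝ) : ℂ), (((y - s) / 2 : ℝ) : ℂ)) := by
    rw [Prod.mk_add_mk]
    congr 1 <;> (push_cast; ring)
  have h := hR ((((x + s) / 2 : ℝ) : ℂ), (((x - s) / 2 : ℝ) : ℂ))
    ((((y - x) / 2 : ℝ) : ℂ), (((y - x) / 2 : ℝ) : ℂ)) rfl (hn x hx)
    (by rw [e1]; exact hn y hy) β hβ (by linarith)
  have hα' : α = 1 - β := by linarith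
  have e2 : ((((x + s) / 2 : ℝ) : ℂ), (((x - s) / 2 : ℝ) : ℂ))
      + β • ((((y - x) / 2 : ℝ) : ℂ), (((y - x) / 2 : ℝ) : ℂ))
      = ((((α • x + β • y + s) / 2 : ℝ) : ℂ), (((α • x + β • y - s) / 2 : ℝ) : ℂ)) := by
    rw [Prod.smul_mk, Prod.mk_add_mk]
    simp only [Complex.real_smul, smul_eq_mul]
    rw [hα']
    congr 1 <;> (push_cast; ring)
  rw [e1, e2, gf_diag a b (habs x hx), gf_diag a b (habs y hy), gf_diag a b (habs _ hz)] at h
  simp only [smul_eq_mul] at h ⊢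
  rw [hα'] at h ⊢
  exact h

theorem conv_ap {a b : ℝ → ℝ} (hcv : ∀ s, ConvexOn ℝ (Ioc 0 s) (fun v => a v * s + b v)) :
    ConvexOn ℝ (Ioi 0) a := by
  refine ⟨convex_Ioi 0, fun x hx y hy α β hα hβ hαβ => ?_⟩
  have hx0 : (0 : ℝ) < x := hx
  have hy0 : (0 : ℝ) < y := hy
  by_contra hlt
  rw [not_le] at hlt
  simp only [smul_eq_mul] at hlt
  set D : ℝ := a (α * x + β * y) - (α * a x + β * a y) with hD
  have hD0 : 0 < D := by linarith
  set E : ℝ := α * b x + β * b y - b (α * x + β * y) with hE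
  set s : ℝ := x + y + |E| / D + 1 with hs
  have hED : 0 ≤ |E| / D := by positivity
  have hx : x ∈ Ioc 0 s := ⟨hx0, by linarith⟩
  have hy : y ∈ Ioc 0 s := ⟨hy0, by linarith⟩
  have h := (hcv s).2 hx hy hα hβ hαβ
  simp only [smul_eq_mul] at h
  have h1 : D * s ≤ E := by rw [hD, hE]; linarith
  have h2 : |E| + D ≤ D * s := by
    have h3 : D * (|E| / D) = |E| := by field_simp
    have h4 : D * s = D * (x + y) + D * (|E| / D) + D := by rw [hs]; ring
    have h5 : 0 ≤ D * (x + y) := by positivity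
    linarith
  linarith [le_abs_self E]

theorem cont_ap {a b : ℝ → ℝ} (hcv : ∀ s, ConvexOn ℝ (Ioc 0 s) (fun v => a v * s + b v)) :
    ContinuousOn a (Ioi 0) ∧ ContinuousOn b (Ioi 0) := by
  have ha : ContinuousOn a (Ioi 0) := (conv_ap hcv).continuousOn isOpen_Ioi
  refine ⟨ha, fun v hv => ?_⟩
  have hv0 : (0 : ℝ) < v := hv
  have h1 : ConvexOn ℝ (Ioo 0 (v + 1)) (fun x => a x * (v + 1) + b x) :=
    (hcv (v + 1)).subset Ioo_subset_Ioc_self (convex_Ioo _ _)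
  have hvm : v ∈ Ioo 0 (v + 1) := ⟨hv0, by linarith⟩
  have h2 : ContinuousAt (fun x => a x * (v + 1) + b x) v :=
    (h1.continuousOn isOpen_Ioo).continuousAt (isOpen_Ioo.mem_nhds hvm)
  have h3 : ContinuousAt (fun x => (a x * (v + 1) + b x) - a x * (v + 1)) v :=
    h2.sub ((ha.continuousAt (Ioi_mem_nhds hv0)).mul continuousAt_const)
  refine (h3.congr (Eventually.of_forall fun v => ?_)).continuousWithinAt
  simp

/-- points where both functions are differentiable are dense -/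
theorem dense_diffp {a b : ℝ → ℝ}
    (hcv : ∀ s, ConvexOn ℝ (Ioc 0 s) (fun v => a v * s + b v)) {x y : ℝ} (hx : 0 < x)
    (hxy : x < y) : ∃ v ∈ Ioo x y, DifferentiableAt ℝ a v ∧ DifferentiableAt ℝ b v := by
  have hca := conv_ap hcv
  set s : ℝ := y + 1 with hs
  have h1 : ConvexOn ℝ (Ioo 0 s) (fun v => a v * s + b v) :=
    (hcv s).subset Ioo_subset_Ioc_self (convex_Ioo _ _)
  have hsub : Icc x y ⊆ Ioo 0 s := fun z hz => ⟨hx.trans_le hz.1, by linarith [hz.2]⟩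
  have hsub' : Icc x y ⊆ Ioi 0 := fun z hz => hx.trans_le hz.1
  obtain ⟨L1, hL1⟩ := ((hca.locallyLipschitzOn isOpen_Ioi).mono
    hsub').exists_lipschitzOnWith_of_compact isCompact_Icc
  obtain ⟨L2, hL2⟩ := ((h1.locallyLipschitzOn isOpen_Ioo).mono
    hsub).exists_lipschitzOnWith_of_compact isCompact_Icc
  have d1 := hL1.ae_differentiableWithinAt_of_mem (μ := volume)
  have d2 := hL2.ae_differentiableWithinAt_of_mem (μ := volume)
  have hm : (volume : Measure ℝ) (Ioo x y) ≠ 0 := by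
    rw [Real.volume_Ioo]; simp [hxy]
  obtain ⟨z, hz, h4⟩ := Measure.exists_mem_of_measure_ne_zero_of_ae hm
    (ae_restrict_of_ae (d1.and d2))
  obtain ⟨h4, h5⟩ := h4
  have hn : Icc x y ∈ 𝓝 z := Icc_mem_nhds hz.1 hz.2
  have h7 := (h4 (Ioo_subset_Icc_self hz)).differentiableAt hn
  have h8 := (h5 (Ioo_subset_Icc_self hz)).differentiableAt hn
  refine ⟨z, hz, h7, ?_⟩
  have h9 : DifferentiableAt ℝ (fun v => (a v * s + b v) - a v * s) z :=
    h8.sub (h7.mul_const s)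
  have e : (fun v => (a v * s + b v) - a v * s) = b := by ext v; ring
  rwa [e] at h9

theorem deriv_nonneg' {Φ : ℝ → ℝ} {m : ℝ} (h : HasDerivAt Φ m 0) (h0 : Φ 0 = 0)
    (hp : ∀ᶠ δ in 𝓝[>] (0 : ℝ), 0 ≤ Φ δ) : 0 ≤ m := by
  have h1 := h.tendsto_slope_zero_right
  refine ge_of_tendsto h1 ?_
  filter_upwards [hp, self_mem_nhdsWithin] with δ hδ hδ'
  have hδ0 : (0 : ℝ) < δ := hδ'
  rw [zero_add, h0, sub_zero, smul_eq_mul]
  exact mul_nonneg (inv_nonneg.2 hδ0.le) hδ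

/-- the value along the segments -/
noncomputable def Psi (a b : ℝ → ℝ) (z v0 S σ t δ : ℝ) : ℝ :=
  a (v0 + σ * ee z t δ) * (S + 2 * t + ee z t δ) + b (v0 + σ * ee z t δ)

theorem sym_deriv {a b : ℝ → ℝ} {z v0 S σ A B : ℝ} (hz : 2 ≤ z) (hA : HasDerivAt a A v0)
    (hB : HasDerivAt b B v0)
    (hp : ∀ᶠ δ in 𝓝[>] (0 : ℝ), 0 ≤ Psi a b z v0 S σ 1 δ + Psi a b z v0 S σ (-1) δ
      - 2 * Psi a b z v0 S σ 0 δ) :
    0 ≤ a v0 + σ * B + σ * A * (S - 2 * z) := by
  have hder : ∀ t, -1 ≤ t → HasDerivAt (Psi a b z v0 S σ t)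
      (-(z * t) / (z + t) * (σ * A * (S + 2 * t) + a v0 + σ * B)) 0 := by
    intro t ht
    have hpos : 0 < z + t := by linarith
    have h1 := ee_deriv hpos
    have h2 : HasDerivAt (fun δ => v0 + σ * ee z t δ) (σ * (-(z * t) / (z + t))) 0 :=
      (h1.const_mul σ).const_add _
    have h3 : HasDerivAt (fun δ => S + 2 * t + ee z t δ) (-(z * t) / (z + t)) 0 :=
      h1.const_add _
    have e0 : v0 + σ * ee z t 0 = v0 := by rw [ee_zero hpos.le]; ring
    have h4 : HasDerivAt (fun δ => a (v0 + σ * ee z t δ)) (A * (σ * (-(z * t) / (z + t)))) 0 :=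
      HasDerivAt.comp (h₂ := a) 0 (by rw [e0]; exact hA) h2
    have h5 : HasDerivAt (fun δ => b (v0 + σ * ee z t δ)) (B * (σ * (-(z * t) / (z + t)))) 0 :=
      HasDerivAt.comp (h₂ := b) 0 (by rw [e0]; exact hB) h2
    have h6 := (h4.mul h3).add h5
    refine h6.congr_deriv ?_
    rw [e0, ee_zero hpos.le, add_zero]
    ring
  have h7 := ((hder 1 (by norm_num)).add (hder (-1) (by norm_num))).sub
    ((hder 0 (by norm_num)).const_mul 2)
  have h8 := deriv_nonneg' h7 (by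
    simp only [Psi, Pi.sub_apply, Pi.add_apply]
    rw [ee_zero (by linarith), ee_zero (by linarith), ee_zero (by linarith)]
    ring) hp
  have i1 : z + 1 ≠ 0 := by linarith
  have i2 : z - 1 ≠ 0 := by linarith
  have i3 : z + -1 ≠ 0 := by linarith
  have h9 : (-(z * 1) / (z + 1) * (σ * A * (S + 2 * 1) + a v0 + σ * B)
      + -(z * -1) / (z + -1) * (σ * A * (S + 2 * -1) + a v0 + σ * B)
      - 2 * (-(z * 0) / (z + 0) * (σ * A * (S + 2 * 0) + a v0 + σ * B)))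
      = 2 * z / ((z + 1) * (z - 1)) * (a v0 + σ * B + σ * A * (S - 2 * z)) := by
    have e3 : z + -1 = z - 1 := by ring
    rw [e3]
    field_simp
    ring
  rw [h9] at h8
  have h10 : 0 < 2 * z / ((z + 1) * (z - 1)) := by
    have : 0 < z - 1 := by linarith
    positivity
  by_contra hneg
  rw [not_le] at hneg
  nlinarith

/-- the unit vector -/
noncomputable def ze (δ : ℝ) : ℂ := ((1 - δ : ℝ) : ℂ) + (Real.sqrt (1 - (1 - δ) ^ 2) : ℝ) * Complex.I

theorem ze_norm {δ : ℝ} (h0 : 0 ≤ δ) (h1 : δ ≤ 1) : ‖ze δ‖ = 1 := by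
  have hσ : 0 ≤ 1 - (1 - δ) ^ 2 := by nlinarith
  unfold ze
  rw [Complex.norm_def, Real.sqrt_eq_one, Complex.normSq_apply]
  simp only [Complex.add_re, Complex.ofReal_re, Complex.mul_re, Complex.ofReal_im,
    Complex.I_re, Complex.I_im, Complex.add_im, Complex.mul_im]
  have hs := Real.mul_self_sqrt hσ
  linarith

theorem seg_norm {z t δ : ℝ} (h0 : 0 ≤ δ) (h1 : δ ≤ 1) :
    ‖(z : ℂ) + t * ze δ‖ = ee z t δ + (z + t) := by
  have hσ : 0 ≤ 1 - (1 - δ) ^ 2 := by nlinarith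
  unfold ee ze
  rw [sub_add_cancel]
  rw [Complex.norm_def]
  congr 1
  rw [Complex.normSq_apply]
  simp only [Complex.add_re, Complex.ofReal_re, Complex.mul_re, Complex.ofReal_im,
    Complex.I_re, Complex.I_im, Complex.add_im, Complex.mul_im]
  have hs := Real.mul_self_sqrt hσ
  ring_nf
  ring_nf at hs
  rw [Real.sq_sqrt (by nlinarith)]
  ring

theorem ee_small {z t ε : ℝ} (h : 0 < z + t) (hε : 0 < ε) :
    ∀ᶠ δ in 𝓝[>] (0 : ℝ), |ee z t δ| < ε := by
  have h1 := (ee_deriv h).continuousAt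
  have h2 : Tendsto (ee z t) (𝓝 0) (𝓝 0) := by
    have := h1.tendsto
    rwa [ee_zero h.le] at this
  have h3 := (h2.mono_left nhdsWithin_le_nhds : Tendsto (ee z t) (𝓝[>] 0) (𝓝 0))
  have h4 := (Metric.tendsto_nhds.1 h3) ε hε
  filter_upwards [h4] with δ hδ
  rwa [Real.dist_eq, sub_zero] at hδ

theorem ee_t0 {z δ : ℝ} (h : 0 ≤ z) : ee z 0 δ = 0 := by
  unfold ee
  rw [add_zero, mul_zero, zero_mul, sub_zero, Real.sqrt_sq h, sub_self]

theorem gf_val {a b : ℝ → ℝ} {F : ℂ × ℂ} {x y : ℝ} (h1 : ‖F.1‖ = x) (h2 : ‖F.2‖ = y) :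
    gf a b F = a (x - y) * (x + y) + b (x - y) := by
  unfold gf
  rw [h1, h2]

theorem norm_re {y : ℝ} (h : 0 ≤ y) : ‖((y : ℝ) : ℂ)‖ = y := by
  rw [Complex.norm_real, Real.norm_of_nonneg h]

/-- the general step -/
theorem half_step {a b : ℝ → ℝ} (hR : RCp (gf a b)) {F H : ℂ × ℂ} {x1 y1 x2 y2 x3 y3 : ℝ}
    (hH : ‖H.1‖ = ‖H.2‖) (h1 : ‖F.1‖ = x1) (h2 : ‖F.2‖ = y1) (h3 : ‖(F + H).1‖ = x2)
    (h4 : ‖(F + H).2‖ = y2) (h5 : ‖(F + (1 / 2 : ℝ) • H).1‖ = x3)
    (h6 : ‖(F + (1 / 2 : ℝ) • H).2‖ = y3) (h7 : y1 < x1) (h8 : y2 < x2) :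
    2 * (a (x3 - y3) * (x3 + y3) + b (x3 - y3)) ≤ (a (x1 - y1) * (x1 + y1) + b (x1 - y1))
      + (a (x2 - y2) * (x2 + y2) + b (x2 - y2)) := by
  have h := hR F H hH (by rw [h1, h2]; exact h7) (by rw [h3, h4]; exact h8) (1 / 2)
    (by norm_num) (by norm_num)
  rw [gf_val h1 h2, gf_val h3 h4, gf_val h5 h6] at h
  linarith

theorem XYp {a b : ℝ → ℝ} (hR : RCp (gf a b)) {v0 A B : ℝ} (hv0 : 0 < v0)
    (hA : HasDerivAt a A v0) (hB : HasDerivAt b B v0) : |B| ≤ a v0 - v0 * A := by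
  set y0 : ℝ := 2 with hy0
  set x0 : ℝ := y0 + v0 with hx0
  have hx2 : 2 ≤ x0 := by rw [hx0, hy0]; linarith
  have h01 : Ioc (0 : ℝ) 1 ∈ 𝓝[>] (0 : ℝ) := Ioc_mem_nhdsGT one_pos
  have hX : 0 ≤ a v0 + 1 * B + 1 * A * ((x0 + y0) - 2 * x0) := by
    apply sym_deriv hx2 hA hB
    filter_upwards [h01, ee_small (z := x0) (t := 1) (by linarith) hv0,
      ee_small (z := x0) (t := -1) (by linarith) hv0] with δ hδ e1 e2
    have hδ0 : 0 ≤ δ := hδ.1.le
    rw [abs_lt] at e1 e2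
    have s1 := seg_norm (z := x0) (t := 1) hδ0 hδ.2
    have s2 := seg_norm (z := x0) (t := -1) hδ0 hδ.2
    have key := half_step hR (F := ((x0 : ℂ) + ((-1 : ℝ) : ℂ) * ze δ, ((y0 - 1 : ℝ) : ℂ)))
      (H := ((2 : ℂ) * ze δ, (2 : ℂ))) (x1 := ee x0 (-1) δ + (x0 + -1)) (y1 := y0 - 1)
      (x2 := ee x0 1 δ + (x0 + 1)) (y2 := y0 + 1) (x3 := x0) (y3 := y0)
      (by simp only [norm_mul, ze_norm hδ0 hδ.2, mul_one]) s2 (norm_re (by rw [hy0]; norm_num))
      (by
        rw [← s1, Prod.mk_add_mk]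
        congr 1
        push_cast
        ring)
      (by
        rw [Prod.mk_add_mk]
        refine Eq.trans ?_ (norm_re (y := y0 + 1) (by rw [hy0]; norm_num))
        congr 1
        push_cast
        ring)
      (by
        rw [Prod.smul_mk, Prod.mk_add_mk]
        refine Eq.trans ?_ (norm_re (y := x0) (by linarith))
        congr 1
        simp only [Complex.real_smul]
        push_cast
        ring)
      (by
        rw [Prod.smul_mk, Prod.mk_add_mk]
        refine Eq.trans ?_ (norm_re (y := y0) (by rw [hy0]; norm_num))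
        congr 1
        simp only [Complex.real_smul]
        push_cast
        ring)
      (by rw [hx0]; linarith) (by rw [hx0]; linarith)
    unfold Psi
    rw [ee_t0 (by linarith)]
    have i1 : ee x0 (-1) δ + (x0 + -1) - (y0 - 1) = v0 + 1 * ee x0 (-1) δ := by
      rw [hx0]; ring
    have i2 : ee x0 1 δ + (x0 + 1) - (y0 + 1) = v0 + 1 * ee x0 1 δ := by
      rw [hx0]; ring
    have i3 : x0 - y0 = v0 := by rw [hx0]; ring
    rw [i1, i2, i3] at key
    have i4 : v0 + 1 * 0 = v0 := by ring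
    rw [i4]
    have i5 : ee x0 (-1) δ + (x0 + -1) + (y0 - 1) = x0 + y0 + 2 * -1 + ee x0 (-1) δ := by ring
    have i6 : ee x0 1 δ + (x0 + 1) + (y0 + 1) = x0 + y0 + 2 * 1 + ee x0 1 δ := by ring
    have i7 : x0 + y0 + 2 * 0 + 0 = x0 + y0 := by ring
    rw [i5, i6] at key
    rw [i7]
    linarith
  have hY : 0 ≤ a v0 + -1 * B + -1 * A * ((x0 + y0) - 2 * y0) := by
    apply sym_deriv (z := y0) (by rw [hy0]) hA hB
    filter_upwards [h01, ee_small (z := y0) (t := 1) (by rw [hy0]; norm_num) hv0,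
      ee_small (z := y0) (t := -1) (by rw [hy0]; norm_num) hv0] with δ hδ e1 e2
    have hδ0 : 0 ≤ δ := hδ.1.le
    rw [abs_lt] at e1 e2
    have s1 := seg_norm (z := y0) (t := 1) hδ0 hδ.2
    have s2 := seg_norm (z := y0) (t := -1) hδ0 hδ.2
    have key := half_step hR (F := (((x0 - 1 : ℝ) : ℂ), (y0 : ℂ) + ((-1 : ℝ) : ℂ) * ze δ))
      (H := ((2 : ℂ), (2 : ℂ) * ze δ)) (x1 := x0 - 1) (y1 := ee y0 (-1) δ + (y0 + -1))
      (x2 := x0 + 1) (y2 := ee y0 1 δ + (y0 + 1)) (x3 := x0) (y3 := y0)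
      (by simp only [norm_mul, ze_norm hδ0 hδ.2, mul_one]) (norm_re (by linarith)) s2
      (by
        rw [Prod.mk_add_mk]
        refine Eq.trans ?_ (norm_re (y := x0 + 1) (by linarith))
        congr 1
        push_cast
        ring)
      (by
        rw [← s1, Prod.mk_add_mk]
        congr 1
        push_cast
        ring)
      (by
        rw [Prod.smul_mk, Prod.mk_add_mk]
        refine Eq.trans ?_ (norm_re (y := x0) (by linarith))
        congr 1
        simp only [Complex.real_smul]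
        push_cast
        ring)
      (by
        rw [Prod.smul_mk, Prod.mk_add_mk]
        refine Eq.trans ?_ (norm_re (y := y0) (by rw [hy0]; norm_num))
        congr 1
        simp only [Complex.real_smul]
        push_cast
        ring)
      (by rw [hx0]; linarith) (by rw [hx0]; linarith)
    unfold Psi
    rw [ee_t0 (by rw [hy0]; norm_num)]
    have i1 : x0 - 1 - (ee y0 (-1) δ + (y0 + -1)) = v0 + -1 * ee y0 (-1) δ := by
      rw [hx0]; ring
    have i2 : x0 + 1 - (ee y0 1 δ + (y0 + 1)) = v0 + -1 * ee y0 1 δ := by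
      rw [hx0]; ring
    have i3 : x0 - y0 = v0 := by rw [hx0]; ring
    rw [i1, i2, i3] at key
    have i4 : v0 + -1 * 0 = v0 := by ring
    rw [i4]
    have i5 : x0 - 1 + (ee y0 (-1) δ + (y0 + -1)) = x0 + y0 + 2 * -1 + ee y0 (-1) δ := by ring
    have i6 : x0 + 1 + (ee y0 1 δ + (y0 + 1)) = x0 + y0 + 2 * 1 + ee y0 1 δ := by ring
    have i7 : x0 + y0 + 2 * 0 + 0 = x0 + y0 := by ring
    rw [i5, i6] at key
    rw [i7]
    linarith
  have j1 : x0 + y0 - 2 * x0 = -v0 := by rw [hx0]; ring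
  have j2 : x0 + y0 - 2 * y0 = v0 := by rw [hx0]; ring
  rw [j1] at hX
  rw [j2] at hY
  rw [abs_le]
  constructor <;> linarith

end Pool.Agent.Y273.VI
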