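import Pool.Agent.Y273.VI.Trunc
import Pool.Agent.Y273.VI.Rc
import Pool.Agent.Y273.VI.Pt
import Pool.Agent.Y273.VI.Fat

/-! # Quasiconvexity on matrices with positive determinant -/

set_option autoImplicit false

namespace Pool.Agent.Y273.VI

open MeasureTheory Set Filter Topology
open Pool.Agent.W360.MQ (cab)
open Pool.Agent.TH937.ZC (QL gf)
open Pool.Agent.W523.MQ.OM (T T_cont)

variable {a b : ℝ → ℝ}

theorem tan_le {f : ℝ → ℝ} {S : Set ℝ} (hf : ConvexOn ℝ S f) {ρ m v : ℝ} (hρ : ρ ∈ S) (hv : v ∈ S)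
    (hd : HasDerivAt f m ρ) : f ρ + m * (v - ρ) ≤ f v := by
  rcases lt_trichotomy v ρ with h | h | h
  · have h1 := hf.slope_le_of_hasDerivAt hv hρ h hd
    rw [slope_def_field, div_le_iff₀ (by linarith)] at h1
    linarith
  · subst h
    simp
  · have h1 := hf.le_slope_of_hasDerivAt hρ hv h hd
    rw [slope_def_field, le_div_iff₀ (by linarith)] at h1
    linarith

/-- the data at a point of differentiability -/
structure Dat (a b : ℝ → ℝ) (ρ A B : ℝ) : Prop where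
  cv : ∀ s, ConvexOn ℝ (Ioc 0 s) (fun v => a v * s + b v)
  ρ0 : 0 < ρ
  dA : HasDerivAt a A ρ
  dB : HasDerivAt b B ρ
  ab : |B| ≤ a ρ - ρ * A

/-- the remainders -/
def Ra (a : ℝ → ℝ) (ρ A v : ℝ) : ℝ := a v - a ρ - A * (v - ρ)

namespace Dat

variable {ρ A B : ℝ} (D : Dat a b ρ A B)
include D

theorem Rconv : ConvexOn ℝ (Ioi 0) (Ra a ρ A) := by
  have h := conv_ap D.cv
  refine ⟨convex_Ioi 0, fun x hx y hy p q hp hq hpq => ?_⟩
  have h1 := h.2 hx hy hp hq hpq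
  simp only [smul_eq_mul] at h1 ⊢
  unfold Ra
  have : q = 1 - p := by linarith
  subst this
  linarith

theorem Rnn (v : ℝ) (hv : 0 < v) : 0 ≤ Ra a ρ A v := by
  have := tan_le (conv_ap D.cv) (mem_Ioi.2 D.ρ0) (mem_Ioi.2 hv) D.dA
  unfold Ra
  linarith

omit D in
theorem R0 : Ra a ρ A ρ = 0 := by simp [Ra]

theorem Ranti : AntitoneOn (Ra a ρ A) (Ioc 0 ρ) := by
  intro u hu v hv huv
  rcases eq_or_lt_of_le huv with h | h
  · rw [h]
  rcases eq_or_lt_of_le hv.2 with h2 | h2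
  · rw [h2, R0]
    exact D.Rnn u hu.1
  have hd : 0 < ρ - u := by linarith
  have ha : 0 ≤ (ρ - v) / (ρ - u) := div_nonneg (by linarith) hd.le
  have hb : 0 ≤ (v - u) / (ρ - u) := div_nonneg (by linarith) hd.le
  have h1 := D.Rconv.2 (mem_Ioi.2 hu.1) (mem_Ioi.2 D.ρ0) ha hb (by field_simp; ring)
  simp only [smul_eq_mul] at h1
  rw [R0, mul_zero, add_zero] at h1
  have e : (ρ - v) / (ρ - u) * u + (v - u) / (ρ - u) * ρ = v := by
    field_simp
    ring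
  rw [e] at h1
  refine h1.trans ?_
  have h3 : (ρ - v) / (ρ - u) ≤ 1 := by
    rw [div_le_one hd]; linarith
  have := mul_le_mul_of_nonneg_right h3 (D.Rnn u hu.1)
  linarith

theorem tanW {s v : ℝ} (hv : 0 < v) (hvs : v ≤ s) (hρs : ρ ≤ s) :
    (a ρ + A * (v - ρ)) * s + (b ρ + B * (v - ρ)) ≤ a v * s + b v := by
  have hd : HasDerivAt (fun v => a v * s + b v) (A * s + B) ρ := (D.dA.mul_const s).add D.dB
  have := tan_le (D.cv s) (ρ := ρ) (v := v) ⟨D.ρ0, hρs⟩ ⟨hv, hvs⟩ hd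
  linarith

theorem lowW {s v : ℝ} (hv : 0 < v) (hvs : v ≤ s) :
    (a ρ + A * (v - ρ)) * s + (b ρ + B * (v - ρ)) + K0 (Ra a ρ A) ρ s v ≤ a v * s + b v := by
  unfold K0
  split_ifs with h
  · have key := part (α := Ra a ρ A) (β := fun v => b v - b ρ - B * (v - ρ)) (ρ := ρ) D.Ranti R0
      (by simp) (by
        intro t ht0 ht
        have h1 := D.cv t
        refine ⟨convex_Ioc _ _, fun x hx y hy p q hp hq hpq => ?_⟩
        have h2 := h1.2 hx hy hp hq hpq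
        simp only [smul_eq_mul] at h2 ⊢
        unfold Ra
        have : q = 1 - p := by linarith
        subst this
        linarith) (by
        intro v hv hvρ
        have := D.tanW hv hvρ le_rfl
        unfold Ra
        linarith) hv h
    have e : a v = Ra a ρ A v + a ρ + A * (v - ρ) := by unfold Ra; ring
    have e2 : a v * s = Ra a ρ A v * s + (a ρ + A * (v - ρ)) * s := by rw [e]; ring
    linarith
  · push Not at h
    have := D.tanW hv hvs (by linarith)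
    linarith

/-- the main estimate for one point of differentiability -/
theorem main {F₀ : Matrix (Fin 2) (Fin 2) ℝ} {Ω : Set (Fin 2 → ℝ)}
    {ϑ : (Fin 2 → ℝ) → (Fin 2 → ℝ)} (h : Tm Ω ϑ)
    (hρ : ρ < ‖(cab F₀).1‖ - ‖(cab F₀).2‖)
    (hpos : ∀ᵐ x ∂(volume.restrict Ω), ‖(T F₀ (fderiv ℝ ϑ x)).2‖ < ‖(T F₀ (fderiv ℝ ϑ x)).1‖)
    (hfin : ∫⁻ x in Ω, ENNReal.ofReal (gf a b (T F₀ (fderiv ℝ ϑ x))) ≠ ⊤)
    (hm : AEStronglyMeasurable (fun x => gf a b (T F₀ (fderiv ℝ ϑ x))) (volume.restrict Ω)) :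
    IntegrableOn (fun x => gf a b (T F₀ (fderiv ℝ ϑ x))) Ω ∧
      ((a ρ + A * (‖(cab F₀).1‖ - ‖(cab F₀).2‖ - ρ)) * (‖(cab F₀).1‖ + ‖(cab F₀).2‖)
        + (b ρ + B * (‖(cab F₀).1‖ - ‖(cab F₀).2‖ - ρ))) * (volume Ω).toReal
        ≤ ∫ x in Ω, gf a b (T F₀ (fderiv ℝ ϑ x)) := by
  set μ := volume.restrict Ω with hμ
  set s : (Fin 2 → ℝ) → ℝ := fun x =>
    ‖(T F₀ (fderiv ℝ ϑ x)).1‖ + ‖(T F₀ (fderiv ℝ ϑ x)).2‖ with hs
  set v : (Fin 2 → ℝ) → ℝ := fun x =>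
    ‖(T F₀ (fderiv ℝ ϑ x)).1‖ - ‖(T F₀ (fderiv ℝ ϑ x)).2‖ with hv
  set l : ℝ := (a ρ + A * (‖(cab F₀).1‖ - ‖(cab F₀).2‖ - ρ)) * (‖(cab F₀).1‖ + ‖(cab F₀).2‖)
        + (b ρ + B * (‖(cab F₀).1‖ - ‖(cab F₀).2‖ - ρ)) with hl
  have hvpos : ∀ᵐ x ∂μ, 0 < v x ∧ v x ≤ s x := by
    filter_upwards [hpos] with x hx
    refine ⟨by simp only [hv]; linarith, ?_⟩
    simp only [hv, hs]
    linarith [norm_nonneg (T F₀ (fderiv ℝ ϑ x)).2]
  -- the sequence
  set r : ℕ → ℝ := fun n => ρ / (n + 2) with hr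
  have hr0 : ∀ n, 0 < r n := fun n => div_pos D.ρ0 (by positivity)
  have hrρ : ∀ n, r n < ρ := by
    intro n
    simp only [hr]
    rw [div_lt_iff₀ (by positivity)]
    have hn : (0 : ℝ) ≤ n := Nat.cast_nonneg n
    nlinarith [D.ρ0]
  have hk : ∀ n, ∃ k, ∀ u, 0 < u → Ra a ρ A (r n) + k * (u - r n) ≤ Ra a ρ A u := by
    intro n
    obtain ⟨k, hk⟩ := sub_grad_on D.Rconv isOpen_Ioi (mem_Ioi.2 (hr0 n))
    exact ⟨k, fun u hu => hk u (mem_Ioi.2 hu)⟩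
  choose k hk using hk
  set g : ℕ → ℂ × ℂ → ℝ := fun n F =>
    Gf (tr (Ra a ρ A) ρ (r n) (k n)) ρ (a ρ) (b ρ) A B (‖F.1‖ + ‖F.2‖) (‖F.1‖ - ‖F.2‖) with hg
  have hgq : ∀ n, Continuous (g n) ∧ QL (g n) (cab F₀) := fun n =>
    ker_ql (tr_conv D.Rconv D.Rnn R0 (hr0 n) (hrρ n) (hk n)) (tr_zero R0 (hrρ n)) D.ρ0 hρ
      D.ab rfl
  have hgc : ∀ n, Continuous (tr (Ra a ρ A) ρ (r n) (k n)) := fun n =>
    continuousOn_univ.1 ((tr_conv D.Rconv D.Rnn R0 (hr0 n) (hrρ n)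
      (hk n)).continuousOn isOpen_univ)
  have hgF : ∀ n, g n (cab F₀) = l := by
    intro n
    simp only [hg, Gf]
    rw [Kf_mid R0 (hrρ n) _ _ ((hrρ n).le.trans hρ.le)]
    unfold K0
    rw [if_neg (not_le.2 hρ), add_zero]
  -- the tangent function is bounded
  obtain ⟨C, hC⟩ := pt_bd (w := fun F : ℂ × ℂ => (a ρ + A * (‖F.1‖ - ‖F.2‖ - ρ))
    * (‖F.1‖ + ‖F.2‖) + (b ρ + B * (‖F.1‖ - ‖F.2‖ - ρ))) (by fun_prop) F₀ h
  have hC0 : 0 ≤ C := (norm_nonneg _).trans (hC 0)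
  set W : (Fin 2 → ℝ) → ℝ := fun x => gf a b (T F₀ (fderiv ℝ ϑ x)) with hW
  have hWe : ∀ x, W x = a (v x) * s x + b (v x) := fun x => rfl
  -- the dominating function
  have hWp : Integrable (fun x => max (W x) 0) μ := by
    refine ⟨hm.sup aestronglyMeasurable_const, ?_⟩
    have hp0 : 0 ≤ᵐ[μ] fun x => max (W x) 0 := Eventually.of_forall fun x => le_max_right _ _
    rw [hasFiniteIntegral_iff_ofReal hp0]
    have e : ∀ x, ENNReal.ofReal (max (W x) 0) = ENNReal.ofReal (W x) := by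
      intro x
      rcases le_total (W x) 0 with h1 | h1
      · rw [max_eq_right h1, ENNReal.ofReal_of_nonpos h1, ENNReal.ofReal_zero]
      · rw [max_eq_left h1]
    simp only [e]
    exact lt_top_iff_ne_top.2 hfin
  have hcI : Integrable (fun _ : Fin 2 → ℝ => C) μ := by
    have : IntegrableOn (fun _ : Fin 2 → ℝ => C) Ω := integrableOn_const h.fin.ne
    exact this
  have hh : Integrable (fun x => max (W x) 0 + C) μ := hWp.add hcI
  have hG : ∀ n, Integrable (fun x => g n (T F₀ (fderiv ℝ ϑ x))) μ := fun n =>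
    pt_int (hgq n).1 F₀ h
  have hle : ∀ n, ∀ᵐ x ∂μ, g n (T F₀ (fderiv ℝ ϑ x)) ≤ max (W x) 0 + C := by
    intro n
    filter_upwards [hvpos] with x hx
    obtain ⟨h1, h2⟩ := hx
    have hCx := hC x
    rw [Real.norm_eq_abs, abs_le] at hCx
    change Gf _ ρ (a ρ) (b ρ) A B (s x) (v x) ≤ _
    unfold Gf
    rcases le_total (r n) (s x) with h3 | h3
    · have h4 := Kf_le D.Rconv D.Rnn R0 (hr0 n) (hrρ n) (hk n) (s := s x) h1 h3
      have h5 := D.lowW h1 h2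
      have h6 : a (v x) * s x + b (v x) ≤ max (W x) 0 := le_max_left (W x) 0
      linarith
    · have h4 := Kf_small (hgc n) (fun y => tr_nonneg D.Rnn R0 (hr0 n) (hrρ n) (hk n) y)
        (r := r n) (ρ := ρ) (a1 := Ra a ρ A (r n)) (k := k n) (s := s x) (v := v x)
        (fun y hy => by unfold tr; rw [if_pos hy]) (hrρ n).le h2 h3
      have h6 := le_max_right (W x) 0
      have h7 := hCx.2
      change (a ρ + A * (v x - ρ)) * s x + (b ρ + B * (v x - ρ)) ≤ C at h7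
      linarith
  have hlow : ∀ n, l * (volume Ω).toReal ≤ ∫ x, g n (T F₀ (fderiv ℝ ϑ x)) ∂μ := by
    intro n
    have := pt_ql (hgq n).1 F₀ (hgq n).2 h
    rwa [hgF n] at this
  -- the limit
  set G : (Fin 2 → ℝ) → ℝ := fun x =>
    (a ρ + A * (v x - ρ)) * s x + (b ρ + B * (v x - ρ)) + K0 (Ra a ρ A) ρ (s x) (v x) with hGd
  have hlim : ∀ᵐ x ∂μ, Tendsto (fun n => g n (T F₀ (fderiv ℝ ϑ x))) atTop (𝓝 (G x)) := by
    filter_upwards [hvpos] with x hx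
    have hrt : Tendsto r atTop (𝓝 0) := by
      have h1 : Tendsto (fun n : ℕ => ((n + 2 : ℕ) : ℝ)) atTop atTop :=
        tendsto_natCast_atTop_atTop.comp (tendsto_add_atTop_nat 2)
      have h2 := (tendsto_const_nhds (x := ρ)).div_atTop h1
      refine h2.congr fun n => ?_
      simp only [hr]
      push_cast
      ring
    have hev : ∀ᶠ n in atTop, r n ≤ v x := by
      filter_upwards [hrt.eventually (gt_mem_nhds hx.1)] with n hn
      exact le_of_lt hn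
    refine tendsto_const_nhds.congr' ?_
    filter_upwards [hev] with n hn
    change _ = Gf _ ρ (a ρ) (b ρ) A B (s x) (v x)
    unfold Gf
    rw [Kf_mid R0 (hrρ n) _ _ hn]
  have hGm : AEStronglyMeasurable G μ :=
    aestronglyMeasurable_of_tendsto_ae atTop (fun n => (hG n).aestronglyMeasurable) hlim
  obtain ⟨i1, i2⟩ := rfatou hG hh hle hlow hGm hlim
  have hGW : ∀ᵐ x ∂μ, G x ≤ W x := by
    filter_upwards [hvpos] with x hx
    exact D.lowW hx.1 hx.2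
  have hWi : Integrable W μ := by
    refine Integrable.mono' (hWp.add i1.abs) hm ?_
    filter_upwards [hGW] with x hx
    rw [Real.norm_eq_abs, Pi.add_apply]
    rcases le_total 0 (W x) with h1 | h1
    · rw [abs_of_nonneg h1]
      have := le_max_left (W x) 0
      have := abs_nonneg (G x)
      linarith
    · rw [abs_of_nonpos h1]
      have := le_max_right (W x) 0
      have := neg_abs_le (G x)
      linarith
  exact ⟨hWi, i2.trans (integral_mono_ae i1 hWi hGW)⟩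

end Dat

theorem meas_W (hcv : ∀ s, ConvexOn ℝ (Ioc 0 s) (fun v => a v * s + b v))
    (F₀ : Matrix (Fin 2) (Fin 2) ℝ) {Ω : Set (Fin 2 → ℝ)} {ϑ : (Fin 2 → ℝ) → (Fin 2 → ℝ)}
    (hpos : ∀ᵐ x ∂(volume.restrict Ω), ‖(T F₀ (fderiv ℝ ϑ x)).2‖ < ‖(T F₀ (fderiv ℝ ϑ x)).1‖) :
    AEStronglyMeasurable (fun x => gf a b (T F₀ (fderiv ℝ ϑ x))) (volume.restrict Ω) := by
  obtain ⟨ha, hb⟩ := cont_ap hcv
  have hP : IsOpen {F : ℂ × ℂ | ‖F.2‖ < ‖F.1‖} := isOpen_lt (by fun_prop) (by fun_prop)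
  have hc : ContinuousOn (gf a b) {F : ℂ × ℂ | ‖F.2‖ < ‖F.1‖} := by
    have h1 : MapsTo (fun F : ℂ × ℂ => ‖F.1‖ - ‖F.2‖) {F : ℂ × ℂ | ‖F.2‖ < ‖F.1‖} (Ioi 0) := by
      intro F hF
      have hF' : ‖F.2‖ < ‖F.1‖ := hF
      exact mem_Ioi.2 (by linarith)
    have h2 : ContinuousOn (fun F : ℂ × ℂ => ‖F.1‖ - ‖F.2‖) {F : ℂ × ℂ | ‖F.2‖ < ‖F.1‖} :=
      Continuous.continuousOn (by fun_prop)
    have h3 : ContinuousOn (fun F : ℂ × ℂ => ‖F.1‖ + ‖F.2‖) {F : ℂ × ℂ | ‖F.2‖ < ‖F.1‖} :=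
      Continuous.continuousOn (by fun_prop)
    exact ((ha.comp h2 h1).mul h3).add (hb.comp h2 h1)
  classical
  have hm := ContinuousOn.measurable_piecewise hc
    (continuousOn_const (c := (0 : ℝ)) (s := {F : ℂ × ℂ | ‖F.2‖ < ‖F.1‖}ᶜ)) hP.measurableSet
  have hm2 := (hm.comp (T_meas F₀ ϑ)).aestronglyMeasurable (μ := volume.restrict Ω)
  refine hm2.congr ?_
  filter_upwards [hpos] with x hx
  have hx' : T F₀ (fderiv ℝ ϑ x) ∈ {F : ℂ × ℂ | ‖F.2‖ < ‖F.1‖} := hx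
  simp only [Function.comp]
  rw [Set.piecewise_eq_of_mem _ _ _ hx']

/-- the theorem in complex notation -/
theorem main_c (hR : RCp (gf a b)) {F₀ : Matrix (Fin 2) (Fin 2) ℝ} {Ω : Set (Fin 2 → ℝ)}
    {ϑ : (Fin 2 → ℝ) → (Fin 2 → ℝ)} (h : Tm Ω ϑ) (hF : ‖(cab F₀).2‖ < ‖(cab F₀).1‖)
    (hpos : ∀ᵐ x ∂(volume.restrict Ω), ‖(T F₀ (fderiv ℝ ϑ x)).2‖ < ‖(T F₀ (fderiv ℝ ϑ x)).1‖)
    (hfin : ∫⁻ x in Ω, ENNReal.ofReal (gf a b (T F₀ (fderiv ℝ ϑ x))) ≠ ⊤) :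
    IntegrableOn (fun x => gf a b (T F₀ (fderiv ℝ ϑ x))) Ω ∧
      gf a b (cab F₀) * (volume Ω).toReal ≤ ∫ x in Ω, gf a b (T F₀ (fderiv ℝ ϑ x)) := by
  have hcv := cvp hR
  have hm := meas_W hcv F₀ hpos
  set v0 : ℝ := ‖(cab F₀).1‖ - ‖(cab F₀).2‖ with hv0
  set s0 : ℝ := ‖(cab F₀).1‖ + ‖(cab F₀).2‖ with hs0
  have hv0p : 0 < v0 := by rw [hv0]; linarith
  have hvs : v0 ≤ s0 := by rw [hv0, hs0]; linarith [norm_nonneg (cab F₀).2]
  have hdat : ∀ x, 0 < x → x < v0 → ∃ ρ A B, x < ρ ∧ ρ < v0 ∧ Dat a b ρ A B := by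
    intro x hx hxv
    obtain ⟨ρ, hρ, d1, d2⟩ := dense_diffp hcv hx hxv
    have hρ0 : 0 < ρ := hx.trans hρ.1
    exact ⟨ρ, deriv a ρ, deriv b ρ, hρ.1, hρ.2, hcv, hρ0, d1.hasDerivAt, d2.hasDerivAt,
      XYp hR hρ0 d1.hasDerivAt d2.hasDerivAt⟩
  have key : ∀ ρ A B, ρ < v0 → Dat a b ρ A B →
      IntegrableOn (fun x => gf a b (T F₀ (fderiv ℝ ϑ x))) Ω ∧
      ((a ρ + A * (v0 - ρ)) * s0 + (b ρ + B * (v0 - ρ))) * (volume Ω).toReal
        ≤ ∫ x in Ω, gf a b (T F₀ (fderiv ℝ ϑ x)) := fun ρ A B h1 D => D.main h h1 hpos hfin hm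
  obtain ⟨ρ1, A1, B1, _, r2, D1⟩ := hdat (v0 / 2) (by positivity) (by linarith)
  refine ⟨(key ρ1 A1 B1 r2 D1).1, ?_⟩
  set I : ℝ := ∫ x in Ω, gf a b (T F₀ (fderiv ℝ ϑ x)) with hI
  set f : ℝ → ℝ := fun v => a v * s0 + b v with hf
  have hfc : ContinuousAt f v0 := by
    obtain ⟨ha, hb⟩ := cont_ap hcv
    exact ((ha.continuousAt (Ioi_mem_nhds hv0p)).mul continuousAt_const).add
      (hb.continuousAt (Ioi_mem_nhds hv0p))
  set L : ℝ → ℝ := fun ρ => f ρ + (v0 - ρ) * ((f ρ - f (v0 / 2)) / (ρ - v0 / 2)) with hL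
  have hLc : ContinuousAt L v0 := by
    have h1 : ContinuousAt (fun ρ : ℝ => ρ - v0 / 2) v0 := by fun_prop
    have h2 : ContinuousAt (fun ρ : ℝ => v0 - ρ) v0 := by fun_prop
    exact hfc.add (h2.mul ((hfc.sub continuousAt_const).div h1 (by linarith)))
  have hL0 : L v0 = f v0 := by simp [hL]
  have hLle : ∀ ρ A B, v0 / 2 < ρ → ρ < v0 → Dat a b ρ A B →
      L ρ ≤ (a ρ + A * (v0 - ρ)) * s0 + (b ρ + B * (v0 - ρ)) := by
    intro ρ A B h1 h2 D
    have hd : HasDerivAt f (A * s0 + B) ρ := (D.dA.mul_const s0).add D.dB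
    have h3 := (hcv s0).slope_le_of_hasDerivAt (x := v0 / 2) (y := ρ)
      ⟨by positivity, by linarith⟩ ⟨D.ρ0, by linarith⟩ h1 hd
    rw [slope_def_field] at h3
    have h4 := mul_le_mul_of_nonneg_left h3 (by linarith : 0 ≤ v0 - ρ)
    simp only [hL]
    refine (add_le_add le_rfl h4).trans (le_of_eq ?_)
    simp only [hf]
    ring
  have hvol : 0 ≤ (volume Ω).toReal := ENNReal.toReal_nonneg
  have hgoal : f v0 * (volume Ω).toReal ≤ I := by
    refine le_of_forall_pos_le_add fun ε hε => ?_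
    set η : ℝ := ε / ((volume Ω).toReal + 1) with hη
    have hη0 : 0 < η := by positivity
    have h1 : ∀ᶠ ρ in 𝓝 v0, L v0 - η < L ρ := hLc.eventually (lt_mem_nhds (by linarith))
    obtain ⟨δ, hδ, h2⟩ := Metric.eventually_nhds_iff.1 h1
    obtain ⟨ρ, A, B, h3, h4, D⟩ := hdat (max (v0 / 2) (v0 - δ))
      (lt_of_lt_of_le (by positivity) (le_max_left _ _)) (max_lt (by linarith) (by linarith))
    have h5 := h2 (y := ρ) (by
      rw [Real.dist_eq, abs_of_nonpos (by linarith)]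
      have := (le_max_right (v0 / 2) (v0 - δ)).trans_lt h3
      linarith)
    have h6 := hLle ρ A B ((le_max_left _ _).trans_lt h3) h4 D
    have h7 := (key ρ A B h4 D).2
    have h8 := mul_le_mul_of_nonneg_right (h5.le.trans h6) hvol
    rw [hL0] at h8
    have h9 : η * (volume Ω).toReal ≤ ε := by
      rw [hη, div_mul_eq_mul_div, div_le_iff₀ (by positivity)]
      nlinarith
    linarith
  exact hgoal

end Pool.Agent.Y273.VI
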