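import Mathlib

/-! # An inequality between the coefficients -/

set_option autoImplicit false

namespace Pool.Agent.Y273.VI

open MeasureTheory Set Filter Topology

/-- a family of convexity conditions gives `0 ≤ β(u) + u α(u) + 2 ∫ α` -/
theorem part {α β : ℝ → ℝ} {ρ : ℝ} (hanti : AntitoneOn α (Ioc 0 ρ)) (h0 : α ρ = 0)
    (hβ : β ρ = 0) (hcv : ∀ t, 0 < t → t ≤ ρ → ConvexOn ℝ (Ioc 0 t) (fun v => α v * t + β v))
    (hpos : ∀ v, 0 < v → v ≤ ρ → 0 ≤ α v * ρ + β v) {u : ℝ} (hu : 0 < u) (huρ : u ≤ ρ) :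
    0 ≤ β u + u * α u + 2 * ∫ t in u..ρ, α t := by
  have hρ : 0 < ρ := lt_of_lt_of_le hu huρ
  have hnn : ∀ v, 0 < v → v ≤ ρ → 0 ≤ α v := by
    intro v h1 h2
    rw [← h0]
    exact hanti ⟨h1, h2⟩ ⟨hρ, le_rfl⟩ h2
  have hint : ∀ x y, 0 < x → x ≤ y → y ≤ ρ → IntervalIntegrable α volume x y := by
    intro x y h1 h2 h3
    apply AntitoneOn.intervalIntegrable
    rw [uIcc_of_le h2]
    exact hanti.mono fun t ht => ⟨h1.trans_le ht.1, ht.2.trans h3⟩
  have key : ∀ N : ℕ, -(2 * ((ρ - u) / (N + 1)) * α u) ≤ β u + u * α u + 2 * ∫ t in u..ρ, α t := by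
    intro N
    set h : ℝ := (ρ - u) / (N + 1) with hh
    have hN : (0 : ℝ) < N + 1 := by positivity
    have hh0 : 0 ≤ h := div_nonneg (by linarith) hN.le
    have hhN : h * (N + 1) = ρ - u := by rw [hh]; field_simp
    have ht0 : ∀ i : ℕ, i ≤ N + 1 → 0 < ρ - i * h := by
      intro i hi
      have h1 : (i : ℝ) ≤ N + 1 := by exact_mod_cast hi
      have h2 : (i : ℝ) * h ≤ (N + 1) * h := by gcongr
      nlinarith
    have htρ : ∀ i : ℕ, ρ - i * h ≤ ρ := by
      intro i
      have : 0 ≤ (i : ℝ) * h := by positivity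
      linarith
    -- the differences
    have D : ∀ i : ℕ, i + 1 ≤ N + 1 →
        (α (ρ - i * h) * (ρ - i * h) + β (ρ - i * h))
          - (α (ρ - (i + 1 : ℕ) * h) * (ρ - i * h) + β (ρ - (i + 1 : ℕ) * h))
          ≤ h * α (ρ - (i + 1 : ℕ) * h) := by
      intro i
      induction i with
      | zero =>
        intro hi
        have h1 := hpos (ρ - (0 + 1 : ℕ) * h) (ht0 _ hi) (htρ _)
        have h2 := hnn (ρ - (0 + 1 : ℕ) * h) (ht0 _ hi) (htρ _)
        have h3 := mul_nonneg hh0 h2
        simp only [Nat.cast_zero, zero_mul, sub_zero, h0, hβ]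
        linarith
      | succ i ih =>
        intro hi
        have h1 := ih (by omega)
        have h2 := (hcv (ρ - i * h) (ht0 i (by omega)) (htρ i)).2
          (x := ρ - i * h) ⟨ht0 i (by omega), le_rfl⟩
          (y := ρ - (i + 1 + 1 : ℕ) * h) ⟨ht0 _ hi, by
            have : (i : ℝ) * h ≤ (i + 1 + 1 : ℕ) * h := by
              have : (i : ℝ) ≤ (i + 1 + 1 : ℕ) := by exact_mod_cast (by omega : i ≤ i + 1 + 1)
              gcongr
            linarith⟩ (by norm_num : (0 : ℝ) ≤ 1 / 2) (by norm_num : (0 : ℝ) ≤ 1 / 2) (by norm_num)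
        simp only [smul_eq_mul] at h2
        have e : 1 / 2 * (ρ - i * h) + 1 / 2 * (ρ - (i + 1 + 1 : ℕ) * h)
            = ρ - (i + 1 : ℕ) * h := by
          push_cast
          ring
        rw [e] at h2
        have e2 : ρ - (i + 1 : ℕ) * h = ρ - i * h - h := by push_cast; ring
        have p1 := congrArg (fun z => α (ρ - (i + 1 : ℕ) * h) * z) e2
        have p2 := congrArg (fun z => α (ρ - (i + 1 + 1 : ℕ) * h) * z) e2
        simp only [mul_sub (α _) _ h] at p1 p2
        linarith
    have P : ∀ i : ℕ, i ≤ N + 1 → -(2 * h * α (ρ - i * h)) ≤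
        β (ρ - i * h) + (ρ - i * h) * α (ρ - i * h) + 2 * ∫ t in (ρ - i * h)..ρ, α t := by
      intro i
      induction i with
      | zero =>
        intro _
        simp only [Nat.cast_zero, zero_mul, sub_zero, h0, hβ, intervalIntegral.integral_same]
        linarith
      | succ i ih =>
        intro hi
        have h1 := ih (by omega)
        have h2 := D i hi
        have hle : ρ - (i + 1 : ℕ) * h ≤ ρ - i * h := by push_cast; nlinarith
        have h3 : h * α (ρ - i * h) ≤ ∫ t in (ρ - (i + 1 : ℕ) * h)..(ρ - i * h), α t := by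
          have h4 : ∫ t in (ρ - (i + 1 : ℕ) * h)..(ρ - i * h), α (ρ - i * h)
              ≤ ∫ t in (ρ - (i + 1 : ℕ) * h)..(ρ - i * h), α t := by
            apply intervalIntegral.integral_mono_on hle
              (_root_.intervalIntegrable_const) (hint _ _ (ht0 _ hi) hle (htρ i))
            intro t ht
            exact hanti ⟨(ht0 _ hi).trans_le ht.1, ht.2.trans (htρ i)⟩
              ⟨ht0 i (by omega), htρ i⟩ ht.2
          rw [intervalIntegral.integral_const, smul_eq_mul] at h4
          refine le_trans (le_of_eq ?_) h4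
          push_cast
          ring
        have h5 := intervalIntegral.integral_add_adjacent_intervals (μ := volume)
          (hint _ _ (ht0 _ hi) hle (htρ i)) (hint _ _ (ht0 i (by omega)) (htρ i) le_rfl)
        have e2 : ρ - (i + 1 : ℕ) * h = ρ - i * h - h := by push_cast; ring
        have p1 := congrArg (fun z => z * α (ρ - (i + 1 : ℕ) * h)) e2
        simp only [sub_mul _ h (α _)] at p1
        linarith
    have hfin := P (N + 1) le_rfl
    have e : ρ - ((N + 1 : ℕ) : ℝ) * h = u := by
      push_cast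
      linarith
    rw [e] at hfin
    exact hfin
  have hlim : Tendsto (fun N : ℕ => -(2 * ((ρ - u) / (N + 1)) * α u)) atTop (𝓝 0) := by
    have h1 : Tendsto (fun N : ℕ => 1 / ((N : ℝ) + 1)) atTop (𝓝 0) :=
      tendsto_one_div_add_atTop_nhds_zero_nat
    have h2 := h1.const_mul (-(2 * (ρ - u) * α u))
    rw [mul_zero] at h2
    refine h2.congr fun N => ?_
    field_simp
  exact le_of_tendsto' hlim key

end Pool.Agent.Y273.VI
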