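import Pool.Agent.Y273.VI.Kern
import Pool.Agent.Y273.VI.Part

/-! # The supporting functions near the point -/

set_option autoImplicit false

namespace Pool.Agent.Y273.VI

open MeasureTheory Set Filter Topology

theorem sub_grad_on {S : Set ℝ} {α : ℝ → ℝ} (hα : ConvexOn ℝ S α) (hS : IsOpen S) {v : ℝ}
    (hv : v ∈ S) : ∃ k, ∀ u ∈ S, α v + k * (u - v) ≤ α u := by
  refine ⟨derivWithin α (Ioi v) v, fun u hu => ?_⟩
  have hv' : v ∈ interior S := by rwa [hS.interior_eq]
  rcases lt_trichotomy u v with h | h | h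
  · have h1 := hα.slope_le_leftDeriv_of_mem_interior hu hv' h
    have h2 := hα.leftDeriv_le_rightDeriv_of_mem_interior hv'
    have h3 := h1.trans h2
    rw [slope_def_field, div_le_iff₀ (by linarith)] at h3
    linarith
  · subst h
    simp
  · have h1 := hα.rightDeriv_le_slope_of_mem_interior hv' hu h
    rw [slope_def_field, le_div_iff₀ (by linarith)] at h1
    linarith

theorem conv_of_supp {g : ℝ → ℝ} (h : ∀ v, ∃ k, ∀ u, g v + k * (u - v) ≤ g u) :
    ConvexOn ℝ univ g := by
  refine ⟨convex_univ, fun x _ y _ p q hp hq hpq => ?_⟩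
  obtain ⟨k, hk⟩ := h (p • x + q • y)
  have h1 := mul_le_mul_of_nonneg_left (hk x) hp
  have h2 := mul_le_mul_of_nonneg_left (hk y) hq
  simp only [smul_eq_mul] at h1 h2 ⊢
  have e : p * (g (p * x + q * y) + k * (x - (p * x + q * y)))
      + q * (g (p * x + q * y) + k * (y - (p * x + q * y))) = g (p * x + q * y) := by
    have : q = 1 - p := by linarith
    subst this
    ring
  linarith

/-- truncation -/
noncomputable def tr (R : ℝ → ℝ) (ρ r k v : ℝ) : ℝ :=
  if v ≤ r then R r + k * (v - r) else if v ≤ ρ then R v else 0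

section

variable {R : ℝ → ℝ} {ρ r k : ℝ}

theorem k_nonpos (hn : ∀ v, 0 < v → 0 ≤ R v) (h0 : R ρ = 0) (hr : 0 < r) (hrρ : r < ρ)
    (hk : ∀ u, 0 < u → R r + k * (u - r) ≤ R u) : k ≤ 0 := by
  have h1 := hk ρ (hr.trans hrρ)
  have h2 := hn r hr
  rw [h0] at h1
  by_contra h
  rw [not_le] at h
  have := mul_pos h (sub_pos.2 hrρ)
  linarith

theorem tr_nonneg (hn : ∀ v, 0 < v → 0 ≤ R v) (h0 : R ρ = 0) (hr : 0 < r) (hrρ : r < ρ)
    (hk : ∀ u, 0 < u → R r + k * (u - r) ≤ R u) (v : ℝ) : 0 ≤ tr R ρ r k v := by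
  have hk0 := k_nonpos hn h0 hr hrρ hk
  unfold tr
  split_ifs with h1 h2
  · have := mul_nonneg_of_nonpos_of_nonpos hk0 (sub_nonpos.2 h1)
    linarith [hn r hr]
  · exact hn v (by push Not at h1; linarith)
  · exact le_rfl

theorem tr_conv (hR : ConvexOn ℝ (Ioi 0) R) (hn : ∀ v, 0 < v → 0 ≤ R v) (h0 : R ρ = 0)
    (hr : 0 < r) (hrρ : r < ρ) (hk : ∀ u, 0 < u → R r + k * (u - r) ≤ R u) :
    ConvexOn ℝ univ (tr R ρ r k) := by
  have hk0 := k_nonpos hn h0 hr hrρ hk
  have hline : ∀ u, R r + k * (u - r) ≤ tr R ρ r k u := by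
    intro u
    unfold tr
    split_ifs with h1 h2
    · exact le_rfl
    · exact hk u (by push Not at h1; linarith)
    · push Not at h1 h2
      have h3 := hk ρ (hr.trans hrρ)
      rw [h0] at h3
      have h4 := mul_le_mul_of_nonpos_left (by linarith : ρ - r ≤ u - r) hk0
      linarith
  apply conv_of_supp
  intro v
  rcases le_or_gt v r with hv | hv
  · refine ⟨k, fun u => ?_⟩
    have e : tr R ρ r k v = R r + k * (v - r) := by
      unfold tr
      rw [if_pos hv]
    rw [e]
    refine le_trans (le_of_eq ?_) (hline u)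
    ring
  · rcases lt_or_ge v ρ with hv2 | hv2
    · have hv0 : 0 < v := hr.trans hv
      obtain ⟨kv, hkv⟩ := sub_grad_on hR isOpen_Ioi (mem_Ioi.2 hv0)
      have e : tr R ρ r k v = R v := by
        unfold tr
        rw [if_neg (not_le.2 hv), if_pos hv2.le]
      have hkv0 : kv ≤ 0 := by
        have h1 := hkv ρ (mem_Ioi.2 (hr.trans hrρ))
        rw [h0] at h1
        by_contra h
        rw [not_le] at h
        have := mul_pos h (sub_pos.2 hv2)
        linarith [hn v hv0]
      have hkk : k ≤ kv := by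
        have h1 := hk v hv0
        have h2 := hkv r (mem_Ioi.2 hr)
        have h3 : 0 ≤ (kv - k) * (v - r) := by nlinarith
        have := nonneg_of_mul_nonneg_left h3 (sub_pos.2 hv)
        linarith
      refine ⟨kv, fun u => ?_⟩
      rw [e]
      unfold tr
      split_ifs with h1 h2
      · have h3 := hkv r (mem_Ioi.2 hr)
        have h4 := mul_nonneg_of_nonpos_of_nonpos (sub_nonpos.2 hkk) (sub_nonpos.2 h1)
        nlinarith
      · exact hkv u (by push Not at h1; exact mem_Ioi.2 (hr.trans h1))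
      · push Not at h1 h2
        have h3 := hkv ρ (mem_Ioi.2 (hr.trans hrρ))
        rw [h0] at h3
        have h4 := mul_le_mul_of_nonpos_left (by linarith : ρ - v ≤ u - v) hkv0
        linarith
    · refine ⟨0, fun u => ?_⟩
      have e : tr R ρ r k v = 0 := by
        unfold tr
        rw [if_neg (not_le.2 hv)]
        split_ifs with h1
        · have : v = ρ := le_antisymm h1 hv2
          rw [this, h0]
        · rfl
      rw [e, zero_mul, add_zero]
      exact tr_nonneg hn h0 hr hrρ hk u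

theorem tr_zero (h0 : R ρ = 0) (hrρ : r < ρ) (v : ℝ) (hv : ρ ≤ v) : tr R ρ r k v = 0 := by
  unfold tr
  rw [if_neg (by linarith)]
  split_ifs with h1
  · have : v = ρ := le_antisymm h1 hv
    rw [this, h0]
  · rfl

theorem tr_mid (v : ℝ) (h1 : r ≤ v) (h2 : v ≤ ρ) : tr R ρ r k v = R v := by
  unfold tr
  split_ifs with h
  · have : v = r := le_antisymm h h1
    rw [this]
    ring
  · rfl

/-- the limit kernel -/
noncomputable def K0 (R : ℝ → ℝ) (ρ s v : ℝ) : ℝ :=
  if v ≤ ρ then R v * (s - v) - 2 * ∫ t in v..ρ, R t else 0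

theorem Kf_mid (h0 : R ρ = 0) (hrρ : r < ρ) (s v : ℝ) (h1 : r ≤ v) :
    Kf (tr R ρ r k) ρ s v = K0 R ρ s v := by
  unfold Kf K0
  split_ifs with h2
  · rw [tr_mid v h1 h2]
    congr 2
    apply intervalIntegral.integral_congr
    intro t ht
    rw [uIcc_of_le h2] at ht
    exact tr_mid t (h1.trans ht.1) ht.2
  · push Not at h2
    have e : ∫ t in v..ρ, tr R ρ r k t = ∫ t in v..ρ, (0 : ℝ) := by
      apply intervalIntegral.integral_congr
      intro t ht
      rw [uIcc_of_ge h2.le] at ht
      exact tr_zero h0 hrρ t ht.1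
    rw [e, tr_zero h0 hrρ v h2.le]
    simp

/-- the truncated kernel lies below the limit kernel for `r ≤ s` -/
theorem Kf_le (hR : ConvexOn ℝ (Ioi 0) R) (hn : ∀ v, 0 < v → 0 ≤ R v) (h0 : R ρ = 0)
    (hr : 0 < r) (hrρ : r < ρ) (hk : ∀ u, 0 < u → R r + k * (u - r) ≤ R u) {s v : ℝ}
    (hv : 0 < v) (hrs : r ≤ s) : Kf (tr R ρ r k) ρ s v ≤ K0 R ρ s v := by
  rcases le_or_gt r v with h | h
  · rw [Kf_mid h0 hrρ s v h]
  have hc : Continuous (tr R ρ r k) :=
    continuousOn_univ.1 ((tr_conv hR hn h0 hr hrρ hk).continuousOn isOpen_univ)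
  have hRc : ContinuousOn R (Ioi 0) := hR.continuousOn isOpen_Ioi
  have hRi : ∀ x y, 0 < x → x ≤ y → IntervalIntegrable R volume x y := by
    intro x y h1 h2
    apply ContinuousOn.intervalIntegrable
    rw [uIcc_of_le h2]
    exact hRc.mono fun t ht => mem_Ioi.2 (h1.trans_le ht.1)
  unfold Kf K0
  rw [if_pos (by linarith)]
  have e1 := intervalIntegral.integral_add_adjacent_intervals (μ := volume)
    (hc.intervalIntegrable v r) (hc.intervalIntegrable r ρ)
  have e2 := intervalIntegral.integral_add_adjacent_intervals (μ := volume)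
    (hRi v r hv h.le) (hRi r ρ hr hrρ.le)
  have e3 : ∫ t in r..ρ, tr R ρ r k t = ∫ t in r..ρ, R t := by
    apply intervalIntegral.integral_congr
    intro t ht
    rw [uIcc_of_le hrρ.le] at ht
    exact tr_mid t ht.1 ht.2
  -- the trapezoid bound for the difference
  have hrv : 0 < r - v := sub_pos.2 h
  have e4 : ∫ t in v..r, R t ≤ ∫ t in v..r, (R r + (R v - R r) / (r - v) * (r - t)) := by
    apply intervalIntegral.integral_mono_on h.le (hRi v r hv h.le)
      (Continuous.intervalIntegrable (by fun_prop) _ _)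
    intro t ht
    have ha : 0 ≤ (r - t) / (r - v) := div_nonneg (by linarith [ht.2]) hrv.le
    have hb : 0 ≤ (t - v) / (r - v) := div_nonneg (by linarith [ht.1]) hrv.le
    have h1 := hR.2 (mem_Ioi.2 hv) (mem_Ioi.2 hr) ha hb (by field_simp; ring)
    simp only [smul_eq_mul] at h1
    have e5 : (r - t) / (r - v) * v + (t - v) / (r - v) * r = t := by
      field_simp
      ring
    rw [e5] at h1
    refine h1.trans (le_of_eq ?_)
    field_simp
    ring
  have e5 : ∫ t in v..r, tr R ρ r k t = ∫ t in v..r, (R r + k * (t - r)) := by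
    apply intervalIntegral.integral_congr
    intro t ht
    rw [uIcc_of_le h.le] at ht
    simp only [tr, if_pos ht.2]
  have e6 : ∫ t in v..r, (R r + (R v - R r) / (r - v) * (r - t))
      = R r * (r - v) + (R v - R r) / 2 * (r - v) := by
    have e7 : ∀ t, R r + (R v - R r) / (r - v) * (r - t)
        = R r + (-((R v - R r) / (r - v))) * (t - r) := fun t => by ring
    simp only [e7]
    rw [int_aff]
    field_simp
    ring
  rw [e6] at e4
  rw [e5, int_aff] at e1
  have e8 : tr R ρ r k v = R r + k * (v - r) := by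
    unfold tr
    rw [if_pos h.le]
  rw [e8, ← e1, ← e2, e3]
  have h9 := mul_nonneg (sub_nonneg.2 (hk v hv)) (sub_nonneg.2 hrs)
  nlinarith

end

end Pool.Agent.Y273.VI
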